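import Pool.Agent.Lib.MP_1acbfe_co.LCCheck
import Pool.Agent.Lib.MP_1acbfe_co.Data

/-!
# Kernel checks of the certificates for the explicit ball
-/

namespace Pool.Agent.Lib.MP_1acbfe_co

/-- The explicit complex with 13 vertices and 64 tetrahedra. -/
def ballK : PreAbstractSimplicialComplex (Fin 13) := cpx (setOf 13 Data.facets)

lemma check_ball : ballCheck 13 15 Data.flips Data.facets = true := by decide +kernel

lemma check_lc : lcCheck 13 3 Data.facets Data.steps Data.pairs Data.trees = true := by
  decide +kernel

lemma check_card : (Data.facets.all fun f => Nat.blt f (2 ^ 13) && Nat.beq (pc 13 f) (3 + 1)) =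
    true := by
  decide +kernel

lemma check_nodup : decide Data.facets.Nodup = true := by decide +kernel

lemma check_length : 0 < Data.facets.length := by decide +kernel

lemma check_shell : shellGo 13 3 [] Data.facets = true := by decide +kernel

lemma check_stars : (Data.stars.all fun p => entryOK 13 Data.facets p.1 p.2.1 p.2.2) = true := by
  decide +kernel

lemma check_range : ((List.range 13).all fun v => (Data.stars.any fun p => Nat.beq p.1 v) &&
    Data.facets.any fun t => t.testBit v) = true := by
  decide +kernel

lemma check_range' : (Data.states.all fun U => Nat.blt U (2 ^ 13) && !(Nat.beq U 0) &&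
    (List.range 13).all fun v => !(Nat.beq U (1 <<< v))) = true := by
  decide +kernel

lemma check_states : statesOK Data.stars Data.states Data.states = true := by decide +kernel

lemma check_full : mem (2 ^ 13 - 1) Data.states = true := by decide +kernel

theorem ballK_isTriangulatedBall : IsTriangulatedBall 3 ballK := by
  refine isTriangulatedBall_of_check (t := 15) (fl := Data.flips) ?_ check_ball
  rw [card_fs]
  decide

theorem ballK_isLC : IsLC 3 ballK := isLC_of_check check_lc

theorem ballK_isShellable : IsShellable 3 ballK :=
  isShellable_of_check check_card check_nodup check_length check_shell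

theorem ballK_evasive : ¬ NonEvasive ballK :=
  not_nonEvasive_of_check check_stars check_range check_range' check_states check_full

theorem ballK_vertices (v : Fin 13) : {v} ∈ ballK.faces := by
  have h := check_range
  simp only [List.all_eq_true, List.mem_range, Bool.and_eq_true, List.any_eq_true] at h
  obtain ⟨-, t, ht, htv⟩ := h v v.2
  exact mem_faces_cpx.mpr ⟨Finset.singleton_nonempty v, t, ht, by simpa using htv⟩

end Pool.Agent.Lib.MP_1acbfe_co
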