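import Mathlib

/-!
# Triangulated balls, non-evasive complexes, shellable and locally constructible complexes
-/

namespace Pool.Agent.Lib.MP_1acbfe_co

/-- The geometric realisation of a finite simplicial complex, as a subspace of `ℝ ^ V`:
barycentric coordinates supported on a face. -/
def realisation {V : Type*} [Fintype V] (K : PreAbstractSimplicialComplex V) : Set (V → ℝ) :=
  {x | (∀ v, 0 ≤ x v) ∧ ∑ v, x v = 1 ∧ ∃ σ ∈ K.faces, ∀ v, x v ≠ 0 → v ∈ σ}

/-- `K` is a triangulated `d`-ball: its geometric realisation is homeomorphic to the closed unit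
ball of `ℝ ^ d`. -/
def IsTriangulatedBall {V : Type*} [Fintype V] (d : ℕ) (K : PreAbstractSimplicialComplex V) :
    Prop :=
  Nonempty (realisation K ≃ₜ Metric.closedBall (0 : EuclideanSpace ℝ (Fin d)) 1)

section Evasive

variable {V : Type*} [DecidableEq V]

/-- The link of the vertex `v`: the nonempty sets `s` with `v ∉ s` and `s ∪ {v} ∈ K`. -/
def link (K : PreAbstractSimplicialComplex V) (v : V) : PreAbstractSimplicialComplex V where
  faces := {s | s.Nonempty ∧ v ∉ s ∧ insert v s ∈ K.faces}
  isRelLowerSet_faces := by
    rintro s ⟨hs, hv, hK⟩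
    refine ⟨hs, fun t hts ht => ⟨ht, fun h => hv (hts h), ?_⟩⟩
    exact (K.isRelLowerSet_faces hK).2 (Finset.insert_subset_insert v hts)
      (Finset.insert_nonempty v t)

/-- The deletion of the vertex `v`: the faces of `K` which do not contain `v`. -/
def deletion (K : PreAbstractSimplicialComplex V) (v : V) : PreAbstractSimplicialComplex V where
  faces := {s | s ∈ K.faces ∧ v ∉ s}
  isRelLowerSet_faces := by
    rintro s ⟨hs, hv⟩
    exact ⟨(K.isRelLowerSet_faces hs).1,
      fun t hts ht => ⟨(K.isRelLowerSet_faces hs).2 hts ht, fun h => hv (hts h)⟩⟩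

/-- Non-evasive complexes: a single vertex is non-evasive, and a complex is non-evasive if the
link and the deletion of one of its vertices are non-evasive. (In the second case `K` has more
than one vertex, since the empty complex is not non-evasive.) -/
inductive NonEvasive : PreAbstractSimplicialComplex V → Prop
  | point {K : PreAbstractSimplicialComplex V} (v : V) (h : K.faces = {{v}}) : NonEvasive K
  | step {K : PreAbstractSimplicialComplex V} (v : V) (hv : {v} ∈ K.faces)
      (hlink : NonEvasive (link K v)) (hdel : NonEvasive (deletion K v)) : NonEvasive K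

end Evasive

section Shellable

/-- `K` is a shellable pure `d`-dimensional complex: its facets all have `d + 1` vertices and can
be listed without repetition as `F 0, …, F (m - 1)`, `m ≥ 1`, so that for each `k ≥ 1` the
intersection of `F k` with the complex generated by the previous facets is pure of dimension
`d - 1`. -/
def IsShellable {V : Type*} [DecidableEq V] (d : ℕ) (K : PreAbstractSimplicialComplex V) : Prop :=
  ∃ (m : ℕ) (F : ℕ → Finset V), 0 < m ∧ (∀ i < m, (F i).card = d + 1) ∧
    (∀ i < m, ∀ j < m, F i = F j → i = j) ∧
    (∀ s : Finset V, s ∈ K.faces ↔ s.Nonempty ∧ ∃ i < m, s ⊆ F i) ∧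
    ∀ k < m, ∀ i < k, ∃ j < k, F i ∩ F k ⊆ F j ∩ F k ∧ (F j ∩ F k).card = d

end Shellable

section LC

/-- An instruction to glue a facet of the `d`-simplex number `i` to a facet of the `d`-simplex
number `j`: each simplex has the vertices `0, …, d`, and the vertex `α l` of simplex `i` is
glued to the vertex `β l` of simplex `j`, for `l = 0, …, d - 1`. -/
structure FacetGluing (d : ℕ) where
  /-- the first simplex -/
  i : ℕ
  /-- the vertices of the facet of the first simplex -/
  α : Fin d ↪ Fin (d + 1)
  /-- the second simplex -/
  j : ℕ
  /-- the vertices of the facet of the second simplex -/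
  β : Fin d ↪ Fin (d + 1)

/-- An ordered `k`-element face `(i, t)` (the face of the simplex number `i` with the vertices
`t 0, …, t (k - 1)`) and an ordered `k`-element face `(j, u)` are identified with each other,
`t l` with `u l`, in the space obtained by gluing simplices along the list `G` of gluings: the
equivalence relation generated by the restrictions of the gluings in `G` to faces of the glued
facets. -/
def Identified {d : ℕ} (G : List (FacetGluing d)) (k : ℕ) :
    ℕ × (Fin k ↪ Fin (d + 1)) → ℕ × (Fin k ↪ Fin (d + 1)) → Prop :=
  Relation.EqvGen fun p q => ∃ g ∈ G, ∃ c : Fin k ↪ Fin d,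
    p = (g.i, c.trans g.α) ∧ q = (g.j, c.trans g.β)

/-- The facet of the simplex number `i` with the vertices `α l` is a boundary facet: it does not
take part in any gluing. -/
def IsBoundaryFacet {d : ℕ} (G : List (FacetGluing d)) (i : ℕ) (α : Fin d ↪ Fin (d + 1)) : Prop :=
  ∀ g ∈ G, ¬ (g.i = i ∧ Set.range g.α = Set.range α) ∧
    ¬ (g.j = i ∧ Set.range g.β = Set.range α)

/-- `LCConstruction d m G`: the pure `d`-dimensional pseudomanifold consisting of the `d`-simplices
number `0, …, m - 1`, glued along the list `G` of gluings of facets, arises from a single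
`d`-simplex by a sequence of the following moves: attaching a new `d`-simplex along one boundary
facet; identifying two distinct boundary facets which share a common `(d - 2)`-face, by a gluing
which extends the identity of this common face. -/
inductive LCConstruction (d : ℕ) : ℕ → List (FacetGluing d) → Prop
  | simplex : LCConstruction d 1 []
  | attach {m : ℕ} {G : List (FacetGluing d)} (i : ℕ) (α β : Fin d ↪ Fin (d + 1))
      (h : LCConstruction d m G) (hi : i < m) (hα : IsBoundaryFacet G i α) :
      LCConstruction d (m + 1) (⟨i, α, m, β⟩ :: G)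
  | identify {m : ℕ} {G : List (FacetGluing d)} (i j : ℕ) (α β : Fin d ↪ Fin (d + 1))
      (c : Fin (d - 1) ↪ Fin d)
      (h : LCConstruction d m G) (hi : i < m) (hj : j < m)
      (hα : IsBoundaryFacet G i α) (hβ : IsBoundaryFacet G j β)
      (hne : ¬ (i = j ∧ Set.range α = Set.range β))
      (hc : Identified G (d - 1) (i, c.trans α) (j, c.trans β)) :
      LCConstruction d m (⟨i, α, j, β⟩ :: G)

/-- `K` is locally constructible (LC), pure of dimension `d`: `K` is the last complex `T_N` of an
LC construction. Here `lab i` names the vertices of the simplex number `i`, each simplex has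
`d + 1` different vertices, the faces of `K` are the faces of the simplices, and faces of the
simplices coincide in `K` exactly if they are identified by the gluings. -/
def IsLC {V : Type*} (d : ℕ) (K : PreAbstractSimplicialComplex V) : Prop :=
  ∃ (m : ℕ) (G : List (FacetGluing d)) (lab : ℕ → Fin (d + 1) → V),
    LCConstruction d m G ∧
    (∀ i < m, Function.Injective (lab i)) ∧
    (∀ s : Finset V, s ∈ K.faces ↔ s.Nonempty ∧ ∃ i < m, ∀ v ∈ s, v ∈ Set.range (lab i)) ∧
    ∀ (k : ℕ), ∀ i < m, ∀ j < m, ∀ t u : Fin k ↪ Fin (d + 1),
      (∀ l, lab i (t l) = lab j (u l)) ↔ Identified G k (i, t) (j, u)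

end LC

end Pool.Agent.Lib.MP_1acbfe_co
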