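import Mathlib
import Pool.Agent.Lib.MP_1acbfe_co.Defs

/-!
# Bistellar flips do not change the geometric realisation up to homeomorphism
-/

namespace Pool.Agent.Lib.MP_1acbfe_co

section

variable {V : Type*}

/-- The complex generated by a set of facets. -/
def cpx (L : Set (Finset V)) : PreAbstractSimplicialComplex V where
  faces := {s | s.Nonempty ∧ ∃ t ∈ L, s ⊆ t}
  isRelLowerSet_faces := by
    rintro s ⟨hs, t, ht, hst⟩
    exact ⟨hs, fun u hus hu => ⟨hu, t, ht, hus.trans hst⟩⟩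

lemma mem_realisation_cpx [Fintype V] {L : Set (Finset V)} {x : V → ℝ} :
    x ∈ realisation (cpx L) ↔
      (∀ v, 0 ≤ x v) ∧ ∑ v, x v = 1 ∧ ∃ t ∈ L, ∀ v, x v ≠ 0 → v ∈ t := by
  constructor
  · rintro ⟨h1, h2, s, ⟨-, t, ht, hst⟩, h3⟩
    exact ⟨h1, h2, t, ht, fun v hv => hst (h3 v hv)⟩
  · rintro ⟨h1, h2, t, ht, h3⟩
    refine ⟨h1, h2, t, ⟨?_, t, ht, subset_rfl⟩, h3⟩
    by_contra hcon
    rw [Finset.not_nonempty_iff_eq_empty] at hcon
    have : ∑ v, x v = 0 := Finset.sum_eq_zero fun v _ => by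
      by_contra hv
      have := h3 v hv
      rw [hcon] at this
      simp at this
    rw [this] at h2
    exact zero_ne_one h2

/-- The minimum of the coordinates in `τ`. -/
noncomputable def mn (τ : Finset V) (hτ : τ.Nonempty) (x : V → ℝ) : ℝ := τ.inf' hτ fun v => x v

lemma mn_le {τ : Finset V} {hτ : τ.Nonempty} {x : V → ℝ} {v : V} (hv : v ∈ τ) :
    mn τ hτ x ≤ x v := Finset.inf'_le _ hv

lemma exists_mn {τ : Finset V} {hτ : τ.Nonempty} {x : V → ℝ} : ∃ v ∈ τ, x v = mn τ hτ x := by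
  obtain ⟨v, hv, h⟩ := Finset.exists_mem_eq_inf' hτ fun v => x v
  exact ⟨v, hv, h.symm⟩

lemma mn_nonneg {τ : Finset V} {hτ : τ.Nonempty} {x : V → ℝ} (hx : ∀ v, 0 ≤ x v) :
    0 ≤ mn τ hτ x := by
  obtain ⟨v, _, h⟩ := exists_mn (hτ := hτ) (x := x)
  rw [← h]; exact hx v

lemma mn_eq_zero {τ : Finset V} {hτ : τ.Nonempty} {x : V → ℝ} (hx : ∀ v, 0 ≤ x v) {v : V}
    (hv : v ∈ τ) (h : x v = 0) : mn τ hτ x = 0 :=
  le_antisymm ((mn_le hv).trans h.le) (mn_nonneg hx)

lemma continuous_mn (τ : Finset V) (hτ : τ.Nonempty) : Continuous (mn τ hτ) := by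
  unfold mn
  exact Continuous.finset_inf'_apply hτ fun v _ => continuous_apply v

variable [DecidableEq V]

/-- The homeomorphism from the star `τ * ∂σ` to `σ * ∂τ`, extended by the identity. -/
noncomputable def flipMap (σ τ : Finset V) (hτ : τ.Nonempty) (x : V → ℝ) : V → ℝ := fun v =>
  x v + (if v ∈ σ then mn τ hτ x * ((τ.card : ℝ) / σ.card) else 0) -
    (if v ∈ τ then mn τ hτ x else 0)

lemma continuous_flipMap (σ τ : Finset V) (hτ : τ.Nonempty) : Continuous (flipMap σ τ hτ) := by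
  refine continuous_pi fun v => ?_
  unfold flipMap
  have h := continuous_mn τ hτ
  by_cases h1 : v ∈ σ <;> by_cases h2 : v ∈ τ <;> simp only [h1, h2, if_true, if_false] <;>
    fun_prop

lemma flipMap_of_zero {σ τ : Finset V} {hτ : τ.Nonempty} {x : V → ℝ} (h : mn τ hτ x = 0) :
    flipMap σ τ hτ x = x := by
  funext v
  simp [flipMap, h]

/-- The facets of `τ * ∂σ`. -/
def star (σ τ : Finset V) : Set (Finset V) := {t | ∃ a ∈ σ, t = τ ∪ σ.erase a}

variable [Fintype V]

lemma flipMap_mem {A : Set (Finset V)} {σ τ : Finset V} (hσ : σ.Nonempty) (hτ : τ.Nonempty)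
    (hd : Disjoint σ τ) (hA : ∀ t ∈ A, ¬ τ ⊆ t) {x : V → ℝ}
    (hx : x ∈ realisation (cpx (A ∪ star σ τ))) :
    flipMap σ τ hτ x ∈ realisation (cpx (A ∪ star τ σ)) := by
  rw [mem_realisation_cpx] at hx ⊢
  obtain ⟨h0, h1, t, ht, hsupp⟩ := hx
  rcases ht with ht | ⟨a, ha, rfl⟩
  · obtain ⟨v, hv, hvt⟩ := Finset.not_subset.mp (hA t ht)
    have hxv : x v = 0 := by
      by_contra h
      exact hvt (hsupp v h)
    rw [flipMap_of_zero (mn_eq_zero h0 hv hxv)]
    exact ⟨h0, h1, t, Or.inl ht, hsupp⟩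
  · have hp : (σ.card : ℝ) ≠ 0 := by exact_mod_cast hσ.card_ne_zero
    have hβ := mn_nonneg (hτ := hτ) h0
    have hr : 0 ≤ mn τ hτ x * ((τ.card : ℝ) / σ.card) := by positivity
    refine ⟨fun v => ?_, ?_, ?_⟩
    · by_cases hv : v ∈ τ
      · have hv' : v ∉ σ := fun h => Finset.disjoint_left.mp hd h hv
        have := mn_le (hτ := hτ) (x := x) hv
        simp only [flipMap, hv, hv', if_true, if_false]
        linarith
      · have := h0 v
        simp only [flipMap, hv, if_false]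
        split_ifs <;> linarith
    · simp only [flipMap]
      rw [Finset.sum_sub_distrib, Finset.sum_add_distrib, h1, Finset.sum_ite_mem,
        Finset.sum_ite_mem, Finset.univ_inter, Finset.univ_inter, Finset.sum_const,
        Finset.sum_const, nsmul_eq_mul, nsmul_eq_mul]
      field_simp
      ring
    · obtain ⟨b, hb, hbm⟩ := exists_mn (hτ := hτ) (x := x)
      refine ⟨σ ∪ τ.erase b, Or.inr ⟨b, hb, rfl⟩, fun v hv => ?_⟩
      rw [Finset.mem_union, Finset.mem_erase]
      by_cases hvs : v ∈ σ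
      · exact Or.inl hvs
      · right
        by_cases hvt : v ∈ τ
        · refine ⟨?_, hvt⟩
          rintro rfl
          apply hv
          simp [flipMap, hvs, hvt, hbm]
        · exfalso
          have : x v ≠ 0 := by
            simpa [flipMap, hvs, hvt] using hv
          have := hsupp v this
          rw [Finset.mem_union, Finset.mem_erase] at this
          tauto

lemma flipMap_flipMap {A : Set (Finset V)} {σ τ : Finset V} (hσ : σ.Nonempty) (hτ : τ.Nonempty)
    (hd : Disjoint σ τ) (hA : ∀ t ∈ A, ¬ σ ⊆ t) {x : V → ℝ}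
    (hx : x ∈ realisation (cpx (A ∪ star σ τ))) :
    flipMap τ σ hσ (flipMap σ τ hτ x) = x := by
  rw [mem_realisation_cpx] at hx
  obtain ⟨h0, h1, t, ht, hsupp⟩ := hx
  obtain ⟨a, ha, hxa⟩ : ∃ a ∈ σ, x a = 0 := by
    have key : ¬ σ ⊆ t := by
      rcases ht with ht | ⟨a, ha, rfl⟩
      · exact hA t ht
      · intro h
        have := h ha
        rw [Finset.mem_union, Finset.mem_erase] at this
        rcases this with h | h
        · exact Finset.disjoint_left.mp hd ha h
        · exact h.1 rfl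
    obtain ⟨a, ha, hat⟩ := Finset.not_subset.mp key
    refine ⟨a, ha, ?_⟩
    by_contra h
    exact hat (hsupp a h)
  have hp : (σ.card : ℝ) ≠ 0 := by exact_mod_cast hσ.card_ne_zero
  have hq : (τ.card : ℝ) ≠ 0 := by exact_mod_cast hτ.card_ne_zero
  have hdl : ∀ v, v ∈ σ → v ∉ τ := fun v h => Finset.disjoint_left.mp hd h
  set β := mn τ hτ x with hβ
  have hm : mn σ hσ (flipMap σ τ hτ x) = β * ((τ.card : ℝ) / σ.card) := by
    apply le_antisymm
    · refine (mn_le ha).trans ?_
      simp [flipMap, ha, hdl a ha, hxa, ← hβ]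
    · obtain ⟨v, hv, hvm⟩ := exists_mn (hτ := hσ) (x := flipMap σ τ hτ x)
      rw [← hvm]
      simp only [flipMap, hv, hdl v hv, if_true, if_false, ← hβ]
      linarith [h0 v]
  funext v
  have : flipMap τ σ hσ (flipMap σ τ hτ x) v = flipMap σ τ hτ x v +
      (if v ∈ τ then mn σ hσ (flipMap σ τ hτ x) * ((σ.card : ℝ) / τ.card) else 0) -
      (if v ∈ σ then mn σ hσ (flipMap σ τ hτ x) else 0) := rfl
  rw [this, hm]
  simp only [flipMap, ← hβ]
  by_cases hv : v ∈ σ
  · simp [hv, hdl v hv]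
  · by_cases hv' : v ∈ τ
    · simp only [hv, hv', if_true, if_false]
      field_simp
      ring
    · simp [hv, hv']

/-- A bistellar flip does not change the homeomorphism type. -/
theorem flip_homeomorph (A : Set (Finset V)) (σ τ : Finset V) (hσ : σ.Nonempty) (hτ : τ.Nonempty)
    (hd : Disjoint σ τ) (hA : ∀ t ∈ A, ¬ σ ⊆ t ∧ ¬ τ ⊆ t) :
    Nonempty (realisation (cpx (A ∪ star σ τ)) ≃ₜ realisation (cpx (A ∪ star τ σ))) := by
  refine ⟨{
    toFun := fun x => ⟨flipMap σ τ hτ x.1, flipMap_mem hσ hτ hd (fun t ht => (hA t ht).2) x.2⟩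
    invFun := fun x => ⟨flipMap τ σ hσ x.1,
      flipMap_mem hτ hσ hd.symm (fun t ht => (hA t ht).1) x.2⟩
    left_inv := fun x => Subtype.ext
      (flipMap_flipMap hσ hτ hd (fun t ht => (hA t ht).1) x.2)
    right_inv := fun x => Subtype.ext
      (flipMap_flipMap hτ hσ hd.symm (fun t ht => (hA t ht).2) x.2)
    continuous_toFun := ?_
    continuous_invFun := ?_ }⟩
  · exact ((continuous_flipMap σ τ hτ).comp continuous_subtype_val).subtype_mk _
  · exact ((continuous_flipMap τ σ hσ).comp continuous_subtype_val).subtype_mk _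

end

end Pool.Agent.Lib.MP_1acbfe_co
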