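import Mathlib
import Pool.Agent.Lib.MP_1acbfe_co.Defs
import Pool.Agent.Lib.MP_1acbfe_co.Flip

/-!
# A single simplex is a triangulated ball
-/

namespace Pool.Agent.Lib.MP_1acbfe_co

/-- The corner simplex in `ℝ ^ d`. -/
def corner (d : ℕ) : Set (EuclideanSpace ℝ (Fin d)) := {y | (∀ i, 0 ≤ y i) ∧ ∑ i, y i ≤ 1}

lemma corner_isClosed (d : ℕ) : IsClosed (corner d) := by
  have : corner d = (⋂ i, {y | 0 ≤ y i}) ∩ {y | ∑ i, y i ≤ 1} := by
    ext y; simp [corner]
  rw [this]
  refine IsClosed.inter (isClosed_iInter fun i => ?_) ?_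
  · exact isClosed_le continuous_const (by fun_prop)
  · exact isClosed_le (by fun_prop) continuous_const

lemma corner_convex (d : ℕ) : Convex ℝ (corner d) := by
  rintro x ⟨hx, hx'⟩ y ⟨hy, hy'⟩ a b ha hb hab
  refine ⟨fun i => ?_, ?_⟩
  · have := mul_nonneg ha (hx i)
    have := mul_nonneg hb (hy i)
    simp only [PiLp.add_apply, PiLp.smul_apply, smul_eq_mul]
    linarith
  · simp only [PiLp.add_apply, PiLp.smul_apply, smul_eq_mul]
    rw [Finset.sum_add_distrib, ← Finset.mul_sum, ← Finset.mul_sum]
    nlinarith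

lemma corner_interior (d : ℕ) : (interior (corner d)).Nonempty := by
  let U : Set (EuclideanSpace ℝ (Fin d)) := (⋂ i, {y | 0 < y i}) ∩ {y | ∑ i, y i < 1}
  have hU : IsOpen U := by
    refine IsOpen.inter (isOpen_iInter_of_finite fun i => ?_) ?_
    · exact isOpen_lt continuous_const (by fun_prop)
    · exact isOpen_lt (by fun_prop) continuous_const
  have hUD : U ⊆ corner d := by
    rintro y ⟨h1, h2⟩
    rw [Set.mem_iInter] at h1
    exact ⟨fun i => (h1 i).le, le_of_lt h2⟩
  refine ⟨WithLp.toLp 2 fun _ => 1 / ((d : ℝ) + 1), interior_maximal hUD hU ⟨?_, ?_⟩⟩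
  · rw [Set.mem_iInter]
    intro i
    change (0 : ℝ) < 1 / ((d : ℝ) + 1)
    positivity
  · change ∑ i : Fin d, 1 / ((d : ℝ) + 1) < 1
    rw [Finset.sum_const, Finset.card_univ, Fintype.card_fin, nsmul_eq_mul, mul_one_div,
      div_lt_one (by positivity)]
    linarith

lemma corner_isBounded (d : ℕ) : Bornology.IsBounded (corner d) := by
  refine (Metric.isBounded_closedBall (x := (0 : EuclideanSpace ℝ (Fin d))) (r := 1)).subset ?_
  rintro y ⟨h1, h2⟩
  rw [mem_closedBall_zero_iff, EuclideanSpace.norm_eq, Real.sqrt_le_one]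
  refine le_trans (Finset.sum_le_sum fun i _ => ?_) h2
  have hi : y i ≤ 1 := le_trans (Finset.single_le_sum (fun j _ => h1 j) (Finset.mem_univ i)) h2
  rw [Real.norm_eq_abs, sq_abs]
  nlinarith [h1 i]

lemma corner_homeomorph (d : ℕ) :
    Nonempty (corner d ≃ₜ Metric.closedBall (0 : EuclideanSpace ℝ (Fin d)) 1) := by
  obtain ⟨h, -, h2, -⟩ := exists_homeomorph_image_interior_closure_frontier_eq_unitBall
    (corner_convex d) (corner_interior d) (corner_isBounded d)
  rw [(corner_isClosed d).closure_eq] at h2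
  exact ⟨(h.image (corner d)).trans (Homeomorph.setCongr h2)⟩

/-- The complex of all faces of one simplex with `d + 1` vertices is a triangulated `d`-ball. -/
theorem simplex_isTriangulatedBall {V : Type*} [Fintype V] [DecidableEq V] (d : ℕ) (t : Finset V)
    (ht : t.card = d + 1) : IsTriangulatedBall d (cpx {t}) := by
  obtain ⟨h⟩ := corner_homeomorph d
  have e : Fin (d + 1) ≃ t := (Finset.equivFinOfCardEq ht).symm
  -- coordinates
  let toC : (V → ℝ) → EuclideanSpace ℝ (Fin d) := fun x => WithLp.toLp 2 fun i => x (e i.castSucc)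
  let frC : EuclideanSpace ℝ (Fin d) → V → ℝ := fun y v =>
    if hv : v ∈ t then Fin.snoc (α := fun _ => ℝ) (fun i => y i) (1 - ∑ i, y i) (e.symm ⟨v, hv⟩)
    else 0
  have htoC : Continuous toC := by
    refine (PiLp.continuous_toLp 2 _).comp ?_
    exact continuous_pi fun i => continuous_apply _
  have hfrC : Continuous frC := by
    refine continuous_pi fun v => ?_
    by_cases hv : v ∈ t
    · simp only [frC, hv, dif_pos]
      rcases Fin.eq_castSucc_or_eq_last (e.symm ⟨v, hv⟩) with ⟨j, hj⟩ | hj
      · rw [hj]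
        simp only [Fin.snoc_castSucc]
        fun_prop
      · rw [hj]
        simp only [Fin.snoc_last]
        fun_prop
    · simp only [frC, hv, dif_neg, not_false_eq_true]
      exact continuous_const
  have hfr_cast : ∀ y (i : Fin d), frC y (e i.castSucc) = y i := by
    intro y i
    simp only [frC, Subtype.coe_eta, Equiv.symm_apply_apply, Fin.snoc_castSucc]
    exact dif_pos (e i.castSucc).2
  have hfr_last : ∀ y, frC y (e (Fin.last d)) = 1 - ∑ i, y i := by
    intro y
    simp only [frC, Subtype.coe_eta, Equiv.symm_apply_apply, Fin.snoc_last]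
    exact dif_pos (e (Fin.last d)).2
  have hsum : ∀ x : V → ℝ, (∀ v, x v ≠ 0 → v ∈ t) →
      ∑ v, x v = ∑ i : Fin d, x (e i.castSucc) + x (e (Fin.last d)) := by
    intro x hx
    rw [← Fin.sum_univ_castSucc (fun i => x (e i)), Equiv.sum_comp e (fun v : t => x v),
      Finset.sum_coe_sort t x]
    refine (Finset.sum_subset (Finset.subset_univ t) fun v _ hv => ?_).symm
    by_contra hne
    exact hv (hx v hne)
  have hmem : ∀ x : V → ℝ, x ∈ realisation (cpx {t}) ↔
      (∀ v, 0 ≤ x v) ∧ ∑ v, x v = 1 ∧ ∀ v, x v ≠ 0 → v ∈ t := by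
    intro x
    rw [mem_realisation_cpx]
    simp
  have hto_mem : ∀ x ∈ realisation (cpx {t}), toC x ∈ corner d := by
    intro x hx
    rw [hmem] at hx
    obtain ⟨h0, h1, hs⟩ := hx
    refine ⟨fun i => h0 _, ?_⟩
    rw [hsum x hs] at h1
    have := h0 (e (Fin.last d))
    change ∑ i : Fin d, x (e i.castSucc) ≤ 1
    linarith
  have hfr_supp : ∀ y v, frC y v ≠ 0 → v ∈ t := by
    intro y v hv
    by_contra hvt
    exact hv (by simp [frC, hvt])
  have hfr_mem : ∀ y ∈ corner d, frC y ∈ realisation (cpx {t}) := by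
    intro y hy
    rw [hmem]
    refine ⟨fun v => ?_, ?_, hfr_supp y⟩
    · by_cases hv : v ∈ t
      · obtain ⟨i, hi⟩ := e.surjective ⟨v, hv⟩
        have hi' : (e i : V) = v := by rw [hi]
        rw [← hi']
        rcases Fin.eq_castSucc_or_eq_last i with ⟨j, rfl⟩ | rfl
        · rw [hfr_cast]; exact hy.1 j
        · rw [hfr_last]; linarith [hy.2]
      · simp [frC, hv]
    · rw [hsum _ (hfr_supp y), hfr_last]
      simp only [hfr_cast]
      ring
  let H : realisation (cpx {t}) ≃ₜ corner d :=
    { toFun := fun x => ⟨toC x.1, hto_mem x.1 x.2⟩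
      invFun := fun y => ⟨frC y.1, hfr_mem y.1 y.2⟩
      left_inv := by
        intro x
        apply Subtype.ext
        have hx := (hmem _).mp x.2
        funext v
        change frC (toC x.1) v = x.1 v
        by_cases hv : v ∈ t
        · obtain ⟨i, hi⟩ := e.surjective ⟨v, hv⟩
          have hi' : (e i : V) = v := by rw [hi]
          rw [← hi']
          rcases Fin.eq_castSucc_or_eq_last i with ⟨j, rfl⟩ | rfl
          · rw [hfr_cast]
          · rw [hfr_last]
            have := hsum x.1 hx.2.2
            rw [hx.2.1] at this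
            change 1 - ∑ i : Fin d, x.1 (e i.castSucc) = x.1 (e (Fin.last d))
            linarith
        · have : x.1 v = 0 := by
            by_contra hne
            exact hv (hx.2.2 v hne)
          rw [this]
          simp [frC, hv]
      right_inv := by
        intro y
        apply Subtype.ext
        ext i
        exact hfr_cast y.1 i
      continuous_toFun := (htoC.comp continuous_subtype_val).subtype_mk _
      continuous_invFun := (hfrC.comp continuous_subtype_val).subtype_mk _ }
  exact ⟨H.trans h⟩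

end Pool.Agent.Lib.MP_1acbfe_co
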