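import Mathlib
import Pool.Agent.Lib.MP_1acbfe_co.Defs
import Pool.Agent.Lib.MP_1acbfe_co.Flip
import Pool.Agent.Lib.MP_1acbfe_co.Simplex

/-!
# Faces as bit masks, and sequences of bistellar flips checked by computation
-/

namespace Pool.Agent.Lib.MP_1acbfe_co

/-- The finite set coded by the bits of `m`. -/
def fs (n m : ℕ) : Finset (Fin n) := Finset.univ.filter fun v => m.testBit v = true

@[simp] lemma mem_fs {n m : ℕ} {v : Fin n} : v ∈ fs n m ↔ m.testBit v = true := by
  simp [fs]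

/-- Inclusion of bit masks. -/
def sub (a b : ℕ) : Bool := Nat.beq (a &&& b) a

lemma sub_iff {a b : ℕ} : sub a b = true ↔ a &&& b = a := by
  unfold sub
  exact Nat.beq_eq ▸ Iff.rfl

lemma fs_and (n a b : ℕ) : fs n (a &&& b) = fs n a ∩ fs n b := by
  ext v; simp

lemma fs_or (n a b : ℕ) : fs n (a ||| b) = fs n a ∪ fs n b := by
  ext v; simp

lemma fs_subset {n a b : ℕ} (h : sub a b = true) : fs n a ⊆ fs n b := by
  rw [sub_iff] at h
  rw [← h, fs_and]
  exact Finset.inter_subset_right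

lemma fs_subset_iff {n a b : ℕ} (ha : a < 2 ^ n) : fs n a ⊆ fs n b ↔ sub a b = true := by
  refine ⟨fun h => ?_, fs_subset⟩
  rw [sub_iff]
  apply Nat.eq_of_testBit_eq
  intro i
  rw [Nat.testBit_and]
  by_cases hi : a.testBit i = true
  · have hin : i < n := by
      by_contra hcon
      have : a < 2 ^ i := lt_of_lt_of_le ha (Nat.pow_le_pow_right (by norm_num) (by omega))
      rw [Nat.testBit_lt_two_pow this] at hi
      exact Bool.false_ne_true hi
    have := @h ⟨i, hin⟩ (mem_fs.mpr hi)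
    rw [mem_fs] at this
    rw [hi, this]
    rfl
  · simp only [Bool.not_eq_true] at hi
    rw [hi]
    rfl

lemma fs_inj {n a b : ℕ} (ha : a < 2 ^ n) (hb : b < 2 ^ n) (h : fs n a = fs n b) : a = b := by
  have h1 := sub_iff.mp ((fs_subset_iff ha).mp h.subset)
  have h2 := sub_iff.mp ((fs_subset_iff hb).mp h.symm.subset)
  rw [Nat.land_comm] at h2
  rw [← h1, h2]

lemma fs_nonempty {n a : ℕ} (ha : a < 2 ^ n) (h0 : a ≠ 0) : (fs n a).Nonempty := by
  by_contra hcon
  rw [Finset.not_nonempty_iff_eq_empty] at hcon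
  have : fs n a = fs n 0 := by rw [hcon]; ext v; simp
  exact h0 (fs_inj ha (by positivity) this)

lemma fs_erase {n a : ℕ} (v : Fin n) (hv : a.testBit v = true) :
    fs n (a ^^^ (1 <<< (v : ℕ))) = (fs n a).erase v := by
  ext w
  rw [mem_fs, Finset.mem_erase, mem_fs, Nat.testBit_xor]
  have : (1 <<< (v : ℕ)).testBit w = decide (v = w) := by
    rw [Nat.one_shiftLeft, Nat.testBit_two_pow]
    simp [Fin.ext_iff]
  rw [this]
  by_cases h : v = w
  · subst h
    simp [hv]
  · simp [h, Ne.symm h]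

/-- The set of faces coded by a list of masks. -/
def setOf (n : ℕ) (L : List ℕ) : Set (Finset (Fin n)) := {s | ∃ t ∈ L, s = fs n t}

/-- Result of the bistellar flip replacing `τ * ∂σ` by `σ * ∂τ`. -/
def flipStep (n : ℕ) (L : List ℕ) (τ σ : ℕ) : List ℕ :=
  (L.filter fun t => !(sub τ t)) ++
    ((List.range n).filter fun b => τ.testBit b).map fun b => σ ||| (τ ^^^ (1 <<< b))

/-- Conditions for a bistellar flip. -/
def flipOK (n : ℕ) (L : List ℕ) (τ σ : ℕ) : Bool :=
  Nat.blt τ (2 ^ n) && Nat.blt σ (2 ^ n) && !(Nat.beq τ 0) && !(Nat.beq σ 0) &&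
  Nat.beq (σ &&& τ) 0 &&
  (L.all fun t => sub τ t || !(sub σ t)) &&
  (L.all fun t => !(sub τ t) ||
    (List.range n).any fun a => σ.testBit a && Nat.beq t (τ ||| (σ ^^^ (1 <<< a)))) &&
  ((List.range n).all fun a => !(σ.testBit a) ||
    L.any fun t => Nat.beq t (τ ||| (σ ^^^ (1 <<< a))))

/-- Perform a sequence of bistellar flips. -/
def runFlips (n : ℕ) : List (ℕ × ℕ) → List ℕ → Option (List ℕ)
  | [], L => some L
  | (τ, σ) :: fl, L =>
    match flipOK n L τ σ with
    | true => runFlips n fl (flipStep n L τ σ)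
    | false => none

lemma flip_step {n : ℕ} {L : List ℕ} {τ σ : ℕ} (h : flipOK n L τ σ = true) :
    Nonempty (realisation (cpx (setOf n L)) ≃ₜ
      realisation (cpx (setOf n (flipStep n L τ σ)))) := by
  unfold flipOK at h
  simp only [Bool.and_eq_true, Bool.or_eq_true, Bool.not_eq_true', List.all_eq_true,
    List.any_eq_true, List.mem_range] at h
  obtain ⟨⟨⟨⟨⟨⟨⟨h1, h2⟩, h3⟩, h4⟩, h5⟩, h6⟩, h7⟩, h8⟩ := h
  have hτ : τ < 2 ^ n := by simpa [Nat.blt] using h1
  have hσ : σ < 2 ^ n := by simpa [Nat.blt] using h2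
  have hτ0 : τ ≠ 0 := by rintro rfl; simp at h3
  have hσ0 : σ ≠ 0 := by rintro rfl; simp at h4
  have h5' : σ &&& τ = 0 := Nat.eq_of_beq_eq_true h5
  have hd : Disjoint (fs n σ) (fs n τ) := by
    rw [Finset.disjoint_iff_inter_eq_empty, ← fs_and, h5']
    ext v; simp
  set A : Set (Finset (Fin n)) := {s | ∃ t ∈ L, sub τ t = false ∧ s = fs n t} with hA
  have hA' : ∀ t ∈ A, ¬ fs n σ ⊆ t ∧ ¬ fs n τ ⊆ t := by
    rintro _ ⟨t, ht, hsub, rfl⟩
    rw [fs_subset_iff hτ, fs_subset_iff hσ, hsub]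
    refine ⟨?_, by simp⟩
    rcases h6 t ht with h | h
    · rw [hsub] at h; exact absurd h (by simp)
    · rw [h]; simp
  have e1 : setOf n L = A ∪ star (fs n σ) (fs n τ) := by
    ext s
    constructor
    · rintro ⟨t, ht, rfl⟩
      rcases Bool.eq_false_or_eq_true (sub τ t) with hs | hs
      · right
        rcases h7 t ht with h | ⟨a, han, haσ, hat⟩
        · rw [hs] at h; exact absurd h (by simp)
        · refine ⟨⟨a, han⟩, mem_fs.mpr haσ, ?_⟩
          rw [Nat.eq_of_beq_eq_true hat, fs_or, fs_erase ⟨a, han⟩ haσ]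
      · exact Or.inl ⟨t, ht, hs, rfl⟩
    · rintro (⟨t, ht, -, rfl⟩ | ⟨a, ha, rfl⟩)
      · exact ⟨t, ht, rfl⟩
      · have haσ := mem_fs.mp ha
        rcases h8 a a.2 with h | ⟨t, ht, hat⟩
        · rw [haσ] at h; exact absurd h (by simp)
        · refine ⟨t, ht, ?_⟩
          rw [Nat.eq_of_beq_eq_true hat, fs_or, fs_erase a haσ]
  have e2 : setOf n (flipStep n L τ σ) = A ∪ star (fs n τ) (fs n σ) := by
    ext s
    constructor
    · rintro ⟨t, ht, rfl⟩
      unfold flipStep at ht
      rw [List.mem_append] at ht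
      rcases ht with ht | ht
      · rw [List.mem_filter] at ht
        exact Or.inl ⟨t, ht.1, by simpa using ht.2, rfl⟩
      · right
        rw [List.mem_map] at ht
        obtain ⟨b, hb, rfl⟩ := ht
        rw [List.mem_filter, List.mem_range] at hb
        exact ⟨⟨b, hb.1⟩, mem_fs.mpr hb.2, by rw [fs_or, ← fs_erase ⟨b, hb.1⟩ hb.2]⟩
    · rintro (⟨t, ht, hs, rfl⟩ | ⟨b, hb, rfl⟩)
      · refine ⟨t, ?_, rfl⟩
        unfold flipStep
        rw [List.mem_append, List.mem_filter]
        exact Or.inl ⟨ht, by simp [hs]⟩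
      · have hbτ := mem_fs.mp hb
        refine ⟨σ ||| (τ ^^^ (1 <<< (b : ℕ))), ?_, by rw [fs_or, fs_erase b hbτ]⟩
        unfold flipStep
        rw [List.mem_append, List.mem_map]
        exact Or.inr ⟨b, List.mem_filter.mpr ⟨List.mem_range.mpr b.2, hbτ⟩, rfl⟩
  rw [e1, e2]
  exact flip_homeomorph A _ _ (fs_nonempty hσ hσ0) (fs_nonempty hτ hτ0) hd hA'

theorem runFlips_homeomorph {n : ℕ} : ∀ (fl : List (ℕ × ℕ)) (L L' : List ℕ),
    runFlips n fl L = some L' →
    Nonempty (realisation (cpx (setOf n L)) ≃ₜ realisation (cpx (setOf n L')))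
  | [], L, L', h => by
    simp only [runFlips, Option.some.injEq] at h
    subst h
    exact ⟨Homeomorph.refl _⟩
  | (τ, σ) :: fl, L, L', h => by
    rcases hok : flipOK n L τ σ with _ | _
    · simp [runFlips, hok] at h
    · simp only [runFlips, hok] at h
      obtain ⟨e1⟩ := flip_step hok
      obtain ⟨e2⟩ := runFlips_homeomorph fl _ _ h
      exact ⟨e1.trans e2⟩

/-- The two lists have the same members. -/
def sameSet (L M : List ℕ) : Bool :=
  (L.all fun t => M.any fun u => Nat.beq t u) && (M.all fun t => L.any fun u => Nat.beq t u)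

lemma setOf_eq {n : ℕ} {L M : List ℕ} (h : sameSet L M = true) : setOf n L = setOf n M := by
  simp only [sameSet, Bool.and_eq_true, List.all_eq_true, List.any_eq_true] at h
  ext s
  constructor
  · rintro ⟨t, ht, rfl⟩
    obtain ⟨u, hu, htu⟩ := h.1 t ht
    exact ⟨u, hu, by rw [Nat.eq_of_beq_eq_true htu]⟩
  · rintro ⟨t, ht, rfl⟩
    obtain ⟨u, hu, htu⟩ := h.2 t ht
    exact ⟨u, hu, by rw [Nat.eq_of_beq_eq_true htu]⟩

/-- Check that a sequence of flips leads from the simplex `t` to the complex with facets `M`. -/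
def ballCheck (n t : ℕ) (fl : List (ℕ × ℕ)) (M : List ℕ) : Bool :=
  match runFlips n fl [t] with
  | some L => sameSet L M
  | none => false

theorem isTriangulatedBall_of_check {n d t : ℕ} {fl : List (ℕ × ℕ)} {M : List ℕ}
    (ht : (fs n t).card = d + 1) (h : ballCheck n t fl M = true) :
    IsTriangulatedBall d (cpx (setOf n M)) := by
  unfold ballCheck at h
  rcases hr : runFlips n fl [t] with _ | L
  · rw [hr] at h; exact absurd h (by simp)
  · rw [hr] at h
    obtain ⟨e1⟩ := runFlips_homeomorph fl [t] L hr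
    rw [setOf_eq h] at e1
    have e0 : setOf n [t] = {fs n t} := by
      ext s; simp [setOf]
    rw [e0] at e1
    obtain ⟨e2⟩ := simplex_isTriangulatedBall d (fs n t) ht
    exact ⟨e1.symm.trans e2⟩

end Pool.Agent.Lib.MP_1acbfe_co
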