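import Mathlib
import Pool.Agent.Lib.MP_1acbfe_co.Defs
import Pool.Agent.Lib.MP_1acbfe_co.Masks

/-!
# Evasiveness by Euler characteristics and a search over induced subcomplexes
-/

namespace Pool.Agent.Lib.MP_1acbfe_co

section General

variable {V : Type*} [Fintype V] [DecidableEq V]

open Classical in
/-- The Euler characteristic of a finite complex. -/
noncomputable def euler (K : PreAbstractSimplicialComplex V) : ℤ :=
  ∑ s ∈ (Finset.univ : Finset (Finset V)).filter (fun s => s ∈ K.faces), (-1) ^ (s.card + 1)

open Classical in
lemma euler_link (K : PreAbstractSimplicialComplex V) (v : V) :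
    euler (link K v) = ∑ s ∈ (Finset.univ : Finset (Finset V)).filter
      (fun s => s ∈ K.faces ∧ v ∈ s ∧ s ≠ {v}), (-1) ^ s.card := by
  unfold euler
  refine Finset.sum_nbij' (fun s => insert v s) (fun s => s.erase v) ?_ ?_ ?_ ?_ ?_
  · intro s hs
    simp only [Finset.mem_filter, Finset.mem_univ, true_and] at hs ⊢
    obtain ⟨h1, h2, h3⟩ := hs
    refine ⟨h3, Finset.mem_insert_self _ _, fun h => ?_⟩
    obtain ⟨w, hw⟩ := h1
    have : w ∈ ({v} : Finset V) := by rw [← h]; exact Finset.mem_insert_of_mem hw
    rw [Finset.mem_singleton] at this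
    exact h2 (this ▸ hw)
  · intro s hs
    simp only [Finset.mem_filter, Finset.mem_univ, true_and] at hs ⊢
    obtain ⟨h1, h2, h3⟩ := hs
    refine ⟨?_, Finset.notMem_erase _ _, by rw [Finset.insert_erase h2]; exact h1⟩
    by_contra hcon
    rw [Finset.not_nonempty_iff_eq_empty, Finset.erase_eq_empty_iff] at hcon
    rcases hcon with h | h
    · rw [h] at h2; exact Finset.notMem_empty _ h2
    · exact h3 h
  · intro s hs
    simp only [Finset.mem_filter, Finset.mem_univ, true_and] at hs
    exact Finset.erase_insert hs.2.1
  · intro s hs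
    simp only [Finset.mem_filter, Finset.mem_univ, true_and] at hs
    exact Finset.insert_erase hs.2.1
  · intro s hs
    simp only [Finset.mem_filter, Finset.mem_univ, true_and] at hs
    rw [Finset.card_insert_of_notMem hs.2.1]

open Classical in
lemma euler_step (K : PreAbstractSimplicialComplex V) (v : V) (hv : {v} ∈ K.faces) :
    euler K = euler (deletion K v) + 1 - euler (link K v) := by
  rw [euler_link]
  unfold euler
  rw [← Finset.sum_filter_add_sum_filter_not _ (fun s => v ∉ s)]
  have e1 : ((Finset.univ : Finset (Finset V)).filter (fun s => s ∈ K.faces)).filter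
      (fun s => v ∉ s) = Finset.univ.filter (fun s => s ∈ (deletion K v).faces) := by
    ext s
    simp only [Finset.mem_filter, Finset.mem_univ, true_and]
    rfl
  have e2 : ((Finset.univ : Finset (Finset V)).filter (fun s => s ∈ K.faces)).filter
      (fun s => ¬ v ∉ s) = insert {v} (Finset.univ.filter
        (fun s => s ∈ K.faces ∧ v ∈ s ∧ s ≠ {v})) := by
    ext s
    simp only [Finset.mem_filter, Finset.mem_univ, true_and, not_not, Finset.mem_insert]
    constructor
    · rintro ⟨h1, h2⟩
      by_cases h : s = {v}
      · exact Or.inl h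
      · exact Or.inr ⟨h1, h2, h⟩
    · rintro (rfl | ⟨h1, h2, -⟩)
      · exact ⟨hv, Finset.mem_singleton_self v⟩
      · exact ⟨h1, h2⟩
  rw [e1, e2, Finset.sum_insert (by simp)]
  have e3 : ∑ s ∈ (Finset.univ : Finset (Finset V)).filter
      (fun s => s ∈ K.faces ∧ v ∈ s ∧ s ≠ {v}), (-1 : ℤ) ^ (s.card + 1) =
      - ∑ s ∈ (Finset.univ : Finset (Finset V)).filter
      (fun s => s ∈ K.faces ∧ v ∈ s ∧ s ≠ {v}), (-1 : ℤ) ^ s.card := by
    rw [← Finset.sum_neg_distrib]
    exact Finset.sum_congr rfl fun s _ => by ring
  rw [e3]
  simp
  ring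

open Classical in
lemma NonEvasive.euler_eq_one {K : PreAbstractSimplicialComplex V} (h : NonEvasive K) :
    euler K = 1 := by
  induction h with
  | @point K v h =>
    unfold euler
    have : (Finset.univ : Finset (Finset V)).filter (fun s => s ∈ K.faces) = {{v}} := by
      ext s
      simp [h]
    rw [this]
    simp
  | step v hv _ _ h1 h2 =>
    rw [euler_step _ v hv, h1, h2]
    norm_num

/-- The subcomplex induced on `U`. -/
def restr (K : PreAbstractSimplicialComplex V) (U : Finset V) : PreAbstractSimplicialComplex V where
  faces := {s | s ∈ K.faces ∧ s ⊆ U}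
  isRelLowerSet_faces := by
    rintro s ⟨hs, hU⟩
    exact ⟨(K.isRelLowerSet_faces hs).1,
      fun t hts ht => ⟨(K.isRelLowerSet_faces hs).2 hts ht, hts.trans hU⟩⟩

omit [Fintype V] in
lemma deletion_restr (K : PreAbstractSimplicialComplex V) (U : Finset V) (v : V) :
    deletion (restr K U) v = restr K (U.erase v) := by
  apply PreAbstractSimplicialComplex.ext
  ext s
  change ((s ∈ K.faces ∧ s ⊆ U) ∧ v ∉ s) ↔ (s ∈ K.faces ∧ s ⊆ U.erase v)
  rw [Finset.subset_erase]
  tauto

omit [DecidableEq V] in
lemma restr_univ (K : PreAbstractSimplicialComplex V) : restr K Finset.univ = K := by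
  apply PreAbstractSimplicialComplex.ext
  ext s
  change (s ∈ K.faces ∧ s ⊆ Finset.univ) ↔ s ∈ K.faces
  simp

end General

/-- Number of bits below `n`. -/
def pc : ℕ → ℕ → ℕ
  | 0, _ => 0
  | n + 1, m => pc n m + (m.testBit n).toNat

lemma card_fs : ∀ n m : ℕ, (fs n m).card = pc n m
  | 0, m => by simp [fs, pc]
  | n + 1, m => by
    rw [pc, ← card_fs n m]
    unfold fs
    rw [Finset.card_filter, Finset.card_filter, Fin.sum_univ_castSucc]
    congr 1
    simp only [Fin.val_last]
    by_cases h : m.testBit n = true <;> simp [h]

/-- Number of masks in the list contained in `U`. -/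
def cnt (U : ℕ) : List ℕ → ℕ
  | [] => 0
  | m :: l => match Nat.beq (Nat.land m U) m with
    | true => Nat.succ (cnt U l)
    | false => cnt U l

/-- Membership. -/
def mem (x : ℕ) : List ℕ → Bool
  | [] => false
  | m :: l => match Nat.beq x m with
    | true => true
    | false => mem x l

lemma mem_iff {x : ℕ} : ∀ {l : List ℕ}, mem x l = true ↔ x ∈ l
  | [] => by simp [mem]
  | m :: l => by
    rw [List.mem_cons, ← mem_iff (l := l)]
    rcases h : Nat.beq x m with _ | _
    · have : x ≠ m := fun e => by
        subst e; simp at h
      simp only [mem, h, this, false_or]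
    · have : x = m := Nat.eq_of_beq_eq_true h
      simp only [mem, this, true_or, Nat.beq_refl]

/-- The check of one state: a vertex of `U` whose link has Euler characteristic one leads to
another state. -/
def starOK (st : List ℕ) (U : ℕ) : List (ℕ × List ℕ × List ℕ) → Bool
  | [] => true
  | (v, ev, od) :: l => match Nat.beq (Nat.land (Nat.pow 2 v) U) (Nat.pow 2 v) with
    | false => starOK st U l
    | true => match Nat.beq (cnt U ev) (Nat.succ (cnt U od)) with
      | false => starOK st U l
      | true => match mem (Nat.xor U (Nat.pow 2 v)) st with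
        | true => starOK st U l
        | false => false

/-- The check of all states. -/
def statesOK (stars : List (ℕ × List ℕ × List ℕ)) (st : List ℕ) : List ℕ → Bool
  | [] => true
  | U :: l => match starOK st U stars with
    | true => statesOK stars st l
    | false => false

lemma statesOK_iff {stars : List (ℕ × List ℕ × List ℕ)} {st : List ℕ} :
    ∀ {l : List ℕ}, statesOK stars st l = true → ∀ U ∈ l, starOK st U stars = true
  | [], _ => by simp
  | U :: l, h => by
    unfold statesOK at h
    rcases hU : starOK st U stars with _ | _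
    · rw [hU] at h; exact absurd h (by simp)
    · rw [hU] at h
      intro W hW
      rcases List.mem_cons.mp hW with rfl | hW
      · exact hU
      · exact statesOK_iff h W hW

lemma starOK_spec {st : List ℕ} {U : ℕ} : ∀ {l : List (ℕ × List ℕ × List ℕ)},
    starOK st U l = true → ∀ v ev od, (v, ev, od) ∈ l → sub (2 ^ v) U = true →
      cnt U ev = cnt U od + 1 → (U ^^^ 2 ^ v) ∈ st
  | [], _ => by simp
  | (v, ev, od) :: l, h => by
    intro v' ev' od' hmem hsub hcnt
    unfold starOK at h
    have hrec : starOK st U l = true ∨ (v', ev', od') ∉ l ∨ (v', ev', od') = (v, ev, od) := by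
      by_cases he : (v', ev', od') = (v, ev, od)
      · exact Or.inr (Or.inr he)
      · left
        revert h
        rcases Nat.beq (Nat.land (Nat.pow 2 v) U) (Nat.pow 2 v) with _ | _
        · exact id
        · rcases Nat.beq (cnt U ev) (Nat.succ (cnt U od)) with _ | _
          · exact id
          · rcases mem (Nat.xor U (Nat.pow 2 v)) st with _ | _
            · simp
            · exact id
    by_cases he : (v', ev', od') = (v, ev, od)
    · simp only [Prod.mk.injEq] at he
      obtain ⟨rfl, rfl, rfl⟩ := he
      have h1 : Nat.beq (Nat.land (Nat.pow 2 v') U) (Nat.pow 2 v') = true := hsub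
      have h2 : Nat.beq (cnt U ev') (Nat.succ (cnt U od')) = true := by
        rw [hcnt]; exact Nat.beq_refl _
      rw [h1] at h
      simp only at h
      rw [h2] at h
      simp only at h
      rcases hm : mem (Nat.xor U (Nat.pow 2 v')) st with _ | _
      · rw [hm] at h; exact absurd h (by simp)
      · exact mem_iff.mp hm
    · rcases hrec with hrec | hrec | hrec
      · refine starOK_spec hrec v' ev' od' ?_ hsub hcnt
        rcases List.mem_cons.mp hmem with h' | h'
        · exact absurd h' he
        · exact h'
      · rcases List.mem_cons.mp hmem with h' | h'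
        · exact absurd h' he
        · exact absurd h' hrec
      · exact absurd hrec he

end Pool.Agent.Lib.MP_1acbfe_co
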