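import Mathlib
import Pool.Agent.Lib.MP_1acbfe_co.Evasive

/-!
# Evasiveness certificates
-/

namespace Pool.Agent.Lib.MP_1acbfe_co

/-- Strictly increasing list. -/
def incr : List ℕ → Bool
  | [] => true
  | [_] => true
  | a :: b :: l => Nat.blt a b && incr (b :: l)

lemma pairwise_of_incr : ∀ {l : List ℕ}, incr l = true → l.Pairwise (· < ·)
  | [], _ => List.Pairwise.nil
  | [a], _ => List.pairwise_singleton _ _
  | a :: b :: l, h => by
    simp only [incr, Bool.and_eq_true] at h
    have hab : a < b := by simpa [Nat.blt] using h.1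
    have ih := pairwise_of_incr h.2
    refine List.Pairwise.cons ?_ ih
    intro x hx
    rcases List.mem_cons.mp hx with rfl | hx
    · exact hab
    · exact hab.trans (List.rel_of_pairwise_cons ih hx)

lemma nodup_of_incr {l : List ℕ} (h : incr l = true) : l.Nodup :=
  (pairwise_of_incr h).imp fun hab => ne_of_lt hab

/-- Check of the lists of faces containing the vertex `v`. -/
def entryOK (n : ℕ) (facets : List ℕ) (v : ℕ) (ev od : List ℕ) : Bool :=
  (ev.all fun m => Nat.blt m (2 ^ n) && m.testBit v && Nat.beq (pc n m % 2) 0 &&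
    facets.any fun t => sub m t) &&
  (od.all fun m => Nat.blt m (2 ^ n) && m.testBit v && Nat.beq (pc n m % 2) 1 &&
    !(Nat.beq m (1 <<< v)) && facets.any fun t => sub m t) &&
  incr ev && incr od &&
  (facets.all fun t => !(t.testBit v) || mem t ev || mem t od) &&
  ((ev ++ od).all fun m => (List.range n).all fun w => !(m.testBit w) || Nat.beq w v ||
    Nat.beq (m ^^^ (1 <<< w)) (1 <<< v) || mem (m ^^^ (1 <<< w)) ev || mem (m ^^^ (1 <<< w)) od)

lemma fs_singleton {n : ℕ} (v : Fin n) : fs n (1 <<< (v : ℕ)) = {v} := by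
  ext w
  rw [mem_fs, Finset.mem_singleton, Nat.one_shiftLeft, Nat.testBit_two_pow]
  simp only [decide_eq_true_eq, Fin.ext_iff]
  exact eq_comm

lemma one_shiftLeft_lt {n : ℕ} (v : Fin n) : 1 <<< (v : ℕ) < 2 ^ n := by
  rw [Nat.one_shiftLeft]
  exact Nat.pow_lt_pow_right (by norm_num) v.2

lemma mem_faces_cpx {n : ℕ} {facets : List ℕ} {s : Finset (Fin n)} :
    s ∈ (cpx (setOf n facets)).faces ↔ s.Nonempty ∧ ∃ t ∈ facets, s ⊆ fs n t := by
  constructor
  · rintro ⟨hs, _, ⟨t, ht, rfl⟩, hst⟩
    exact ⟨hs, t, ht, hst⟩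
  · rintro ⟨hs, t, ht, hst⟩
    exact ⟨hs, _, ⟨t, ht, rfl⟩, hst⟩

section Entry

variable {n : ℕ} {facets : List ℕ} {v : Fin n} {ev od : List ℕ}

lemma entry_complete (h : entryOK n facets v ev od = true) {s : Finset (Fin n)}
    (hs : s ∈ (cpx (setOf n facets)).faces) (hv : v ∈ s) (hne : s ≠ {v}) :
    ∃ m ∈ ev ++ od, fs n m = s := by
  simp only [entryOK, Bool.and_eq_true, List.all_eq_true, List.mem_range] at h
  obtain ⟨⟨-, h5⟩, h6⟩ := h
  rw [mem_faces_cpx] at hs
  obtain ⟨-, t, ht, hst⟩ := hs
  have key : ∀ k : ℕ, ∀ s : Finset (Fin n), v ∈ s → s ⊆ fs n t → (fs n t \ s).card = k →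
      s = {v} ∨ ∃ m ∈ ev ++ od, fs n m = s := by
    intro k
    induction k with
    | zero =>
      intro s hv hst hk
      right
      rw [Finset.card_eq_zero, Finset.sdiff_eq_empty_iff_subset] at hk
      have hs : fs n t = s := Finset.Subset.antisymm hk hst
      refine ⟨t, ?_, hs⟩
      have := h5 t ht
      have htv : t.testBit v = true := mem_fs.mp (hst hv)
      simp only [htv, Bool.not_true, Bool.false_or, Bool.or_eq_true] at this
      rw [List.mem_append]
      rcases this with h | h
      · exact Or.inl (mem_iff.mp h)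
      · exact Or.inr (mem_iff.mp h)
    | succ k ih =>
      intro s hv hst hk
      obtain ⟨w, hw⟩ : (fs n t \ s).Nonempty := by
        rw [← Finset.card_pos]; omega
      rw [Finset.mem_sdiff] at hw
      have hwv : w ≠ v := fun e => hw.2 (e ▸ hv)
      have h1 := ih (insert w s) (Finset.mem_insert_of_mem hv)
        (Finset.insert_subset hw.1 hst) (by
          rw [Finset.sdiff_insert, Finset.card_erase_of_mem (Finset.mem_sdiff.mpr hw), hk]
          rfl)
      rcases h1 with h1 | ⟨m, hm, hms⟩
      · exfalso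
        have : w ∈ ({v} : Finset (Fin n)) := by rw [← h1]; exact Finset.mem_insert_self _ _
        exact hwv (Finset.mem_singleton.mp this)
      · have hmw : m.testBit w = true := by
          rw [← mem_fs (n := n), hms]; exact Finset.mem_insert_self _ _
        have hse : fs n (m ^^^ (1 <<< (w : ℕ))) = s := by
          rw [fs_erase w hmw, hms, Finset.erase_insert hw.2]
        have := h6 m hm w w.2
        have hwv' : Nat.beq (w : ℕ) v = false := by
          rw [← Bool.not_eq_true]
          intro e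
          exact hwv (Fin.ext (Nat.eq_of_beq_eq_true e))
        simp only [hmw, hwv', Bool.not_true, Bool.false_or, Bool.or_eq_true] at this
        rcases this with (h | h) | h
        · left
          rw [← hse, Nat.eq_of_beq_eq_true h, fs_singleton]
        · exact Or.inr ⟨_, List.mem_append.mpr (Or.inl (mem_iff.mp h)), hse⟩
        · exact Or.inr ⟨_, List.mem_append.mpr (Or.inr (mem_iff.mp h)), hse⟩
  rcases key _ s hv hst rfl with h | h
  · exact absurd h hne
  · exact h

lemma entry_sound (h : entryOK n facets v ev od = true) {m : ℕ} (hm : m ∈ ev ++ od) :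
    fs n m ∈ (cpx (setOf n facets)).faces ∧ v ∈ fs n m ∧ fs n m ≠ {v} := by
  simp only [entryOK, Bool.and_eq_true, List.all_eq_true, List.any_eq_true] at h
  obtain ⟨⟨⟨⟨⟨h1, h2⟩, -⟩, -⟩, -⟩, -⟩ := h
  rw [List.mem_append] at hm
  rcases hm with hm | hm
  · obtain ⟨⟨⟨-, hv⟩, hp⟩, t, ht, hmt⟩ := h1 m hm
    have hv' : v ∈ fs n m := mem_fs.mpr hv
    refine ⟨mem_faces_cpx.mpr ⟨⟨v, hv'⟩, t, ht, fs_subset hmt⟩, hv', fun e => ?_⟩
    have := card_fs n m
    rw [e, Finset.card_singleton] at this
    rw [← this] at hp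
    exact absurd hp (by decide)
  · obtain ⟨⟨⟨⟨hlt, hv⟩, hp⟩, hne⟩, t, ht, hmt⟩ := h2 m hm
    have hv' : v ∈ fs n m := mem_fs.mpr hv
    refine ⟨mem_faces_cpx.mpr ⟨⟨v, hv'⟩, t, ht, fs_subset hmt⟩, hv', fun e => ?_⟩
    have hlt' : m < 2 ^ n := by simpa [Nat.blt] using hlt
    have := fs_inj hlt' (one_shiftLeft_lt v) (e.trans (fs_singleton v).symm)
    rw [this] at hne
    simp at hne

lemma sum_even {U : ℕ} : ∀ {l : List ℕ}, (∀ m ∈ l, m < 2 ^ n ∧ pc n m % 2 = 0) →
    (l.map fun m => if fs n m ⊆ fs n U then (-1 : ℤ) ^ (fs n m).card else 0).sum = cnt U l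
  | [], _ => by simp [cnt]
  | m :: l, h => by
    have ih := sum_even (U := U) (l := l) fun x hx => h x (List.mem_cons_of_mem _ hx)
    obtain ⟨h1, h2⟩ := h m List.mem_cons_self
    rw [List.map_cons, List.sum_cons, ih]
    have hc : (-1 : ℤ) ^ (fs n m).card = 1 := by
      rw [card_fs]; exact (Nat.even_iff.mpr h2).neg_one_pow
    rw [hc]
    have hiff := fs_subset_iff (b := U) h1
    rcases hb : Nat.beq (Nat.land m U) m with _ | _
    · have : ¬ fs n m ⊆ fs n U := by
        rw [hiff]; change ¬ (Nat.beq (Nat.land m U) m = true); rw [hb]; simp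
      simp only [cnt, hb, this, if_false, zero_add]
    · have : fs n m ⊆ fs n U := by rw [hiff]; exact hb
      simp only [cnt, hb, this, if_true]
      push_cast
      ring

lemma sum_odd {U : ℕ} : ∀ {l : List ℕ}, (∀ m ∈ l, m < 2 ^ n ∧ pc n m % 2 = 1) →
    (l.map fun m => if fs n m ⊆ fs n U then (-1 : ℤ) ^ (fs n m).card else 0).sum = - cnt U l
  | [], _ => by simp [cnt]
  | m :: l, h => by
    have ih := sum_odd (U := U) (l := l) fun x hx => h x (List.mem_cons_of_mem _ hx)
    obtain ⟨h1, h2⟩ := h m List.mem_cons_self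
    rw [List.map_cons, List.sum_cons, ih]
    have hc : (-1 : ℤ) ^ (fs n m).card = -1 := by
      rw [card_fs]; exact (Nat.odd_iff.mpr h2).neg_one_pow
    rw [hc]
    have hiff := fs_subset_iff (b := U) h1
    rcases hb : Nat.beq (Nat.land m U) m with _ | _
    · have : ¬ fs n m ⊆ fs n U := by
        rw [hiff]; change ¬ (Nat.beq (Nat.land m U) m = true); rw [hb]; simp
      simp only [cnt, hb, this, if_false, zero_add]
    · have : fs n m ⊆ fs n U := by rw [hiff]; exact hb
      simp only [cnt, hb, this, if_true]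
      push_cast
      ring

lemma entry_euler (h : entryOK n facets v ev od = true) (U : ℕ) :
    euler (link (restr (cpx (setOf n facets)) (fs n U)) v) = (cnt U ev : ℤ) - cnt U od := by
  classical
  have hev : ∀ m ∈ ev, m < 2 ^ n ∧ pc n m % 2 = 0 := by
    simp only [entryOK, Bool.and_eq_true, List.all_eq_true] at h
    obtain ⟨⟨⟨⟨⟨h1, -⟩, -⟩, -⟩, -⟩, -⟩ := h
    intro m hm
    obtain ⟨⟨⟨a, -⟩, b⟩, -⟩ := h1 m hm
    exact ⟨by simpa [Nat.blt] using a, Nat.eq_of_beq_eq_true b⟩
  have hod : ∀ m ∈ od, m < 2 ^ n ∧ pc n m % 2 = 1 := by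
    simp only [entryOK, Bool.and_eq_true, List.all_eq_true] at h
    obtain ⟨⟨⟨⟨⟨-, h1⟩, -⟩, -⟩, -⟩, -⟩ := h
    intro m hm
    obtain ⟨⟨⟨⟨a, -⟩, b⟩, -⟩, -⟩ := h1 m hm
    exact ⟨by simpa [Nat.blt] using a, Nat.eq_of_beq_eq_true b⟩
  have hnd : ((ev ++ od).map (fs n)).Nodup := by
    have h3 : ev.Nodup ∧ od.Nodup := by
      simp only [entryOK, Bool.and_eq_true] at h
      obtain ⟨⟨⟨⟨-, h3⟩, h4⟩, -⟩, -⟩ := h
      exact ⟨nodup_of_incr h3, nodup_of_incr h4⟩
    have hnd' : (ev ++ od).Nodup := by
      rw [List.nodup_append]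
      refine ⟨h3.1, h3.2, fun a ha b hb e => ?_⟩
      subst e
      have := (hev a ha).2
      have := (hod a hb).2
      omega
    rw [List.nodup_map_iff_inj_on hnd']
    have hlt : ∀ m ∈ ev ++ od, m < 2 ^ n := by
      intro m hm
      rcases List.mem_append.mp hm with hm | hm
      · exact (hev m hm).1
      · exact (hod m hm).1
    intro x hx y hy e
    exact fs_inj (hlt x hx) (hlt y hy) e
  rw [euler_link]
  set g : Finset (Fin n) → ℤ := fun s => if s ⊆ fs n U then (-1 : ℤ) ^ s.card else 0 with hg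
  have e1 : ∑ s ∈ (Finset.univ : Finset (Finset (Fin n))).filter
      (fun s => s ∈ (restr (cpx (setOf n facets)) (fs n U)).faces ∧ v ∈ s ∧ s ≠ {v}),
      (-1 : ℤ) ^ s.card = ∑ s ∈ ((ev ++ od).map (fs n)).toFinset, g s := by
    rw [hg, ← Finset.sum_filter]
    refine Finset.sum_congr ?_ fun _ _ => rfl
    ext s
    simp only [Finset.mem_filter, Finset.mem_univ, true_and, List.mem_toFinset, List.mem_map]
    constructor
    · rintro ⟨⟨hK, hU⟩, hv, hne⟩
      exact ⟨entry_complete h hK hv hne, hU⟩
    · rintro ⟨⟨m, hm, rfl⟩, hU⟩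
      obtain ⟨a, b, c⟩ := entry_sound h hm
      exact ⟨⟨a, hU⟩, b, c⟩
  rw [e1, List.sum_toFinset _ hnd, List.map_map, List.map_append, List.sum_append]
  have e2 := sum_even (n := n) (U := U) hev
  have e3 := sum_odd (n := n) (U := U) hod
  change (List.map (fun m => if fs n m ⊆ fs n U then (-1 : ℤ) ^ (fs n m).card else 0) ev).sum +
    (List.map (fun m => if fs n m ⊆ fs n U then (-1 : ℤ) ^ (fs n m).card else 0) od).sum = _
  rw [e2, e3]
  ring

end Entry

/-- Certificate for evasiveness. -/
theorem not_nonEvasive_of_check {n : ℕ} {facets states : List ℕ}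
    {stars : List (ℕ × List ℕ × List ℕ)}
    (h1 : (stars.all fun p => entryOK n facets p.1 p.2.1 p.2.2) = true)
    (h2 : ((List.range n).all fun v => (stars.any fun p => Nat.beq p.1 v) &&
      facets.any fun t => t.testBit v) = true)
    (h4 : (states.all fun U => Nat.blt U (2 ^ n) && !(Nat.beq U 0) &&
      (List.range n).all fun v => !(Nat.beq U (1 <<< v))) = true)
    (h5 : statesOK stars states states = true)
    (h6 : mem (2 ^ n - 1) states = true) :
    ¬ NonEvasive (cpx (setOf n facets)) := by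
  simp only [List.all_eq_true, List.mem_range, Bool.and_eq_true, List.any_eq_true] at h1 h2 h4
  have hvert : ∀ v : Fin n, {v} ∈ (cpx (setOf n facets)).faces := by
    intro v
    obtain ⟨-, t, ht, htv⟩ := h2 v v.2
    exact mem_faces_cpx.mpr ⟨Finset.singleton_nonempty v, t, ht, by simpa using htv⟩
  have key : ∀ K : PreAbstractSimplicialComplex (Fin n), NonEvasive K → ∀ U ∈ states,
      K = restr (cpx (setOf n facets)) (fs n U) → False := by
    intro K hK
    induction hK with
    | @point K v h =>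
      rintro U hU rfl
      obtain ⟨⟨hlt, h0⟩, hne⟩ := h4 U hU
      have hlt' : U < 2 ^ n := by simpa [Nat.blt] using hlt
      have h0' : U ≠ 0 := by rintro rfl; simp at h0
      have hsub : ∀ u ∈ fs n U, u = v := by
        intro u hu
        have : ({u} : Finset (Fin n)) ∈ (restr (cpx (setOf n facets)) (fs n U)).faces :=
          ⟨hvert u, by simpa using hu⟩
        rw [h] at this
        exact Finset.singleton_injective this
      obtain ⟨u, hu⟩ := fs_nonempty hlt' h0'
      have huv := hsub u hu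
      subst huv
      have : fs n U = fs n (1 <<< (u : ℕ)) := by
        rw [fs_singleton]
        ext w
        rw [Finset.mem_singleton]
        exact ⟨hsub w, fun e => e ▸ hu⟩
      have := fs_inj hlt' (one_shiftLeft_lt u) this
      have hn := hne u u.2
      rw [this] at hn
      simp at hn
    | @step K v hv hl hd _ ihd =>
      rintro U hU rfl
      have hvU : v ∈ fs n U := by simpa using hv.2
      have he := hl.euler_eq_one
      obtain ⟨p, hp, hpv⟩ := (h2 v v.2).1
      have hpv' := Nat.eq_of_beq_eq_true hpv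
      obtain ⟨v', ev, od⟩ := p
      simp only at hpv'
      subst hpv'
      have hentry : entryOK n facets (v : ℕ) ev od = true := h1 _ hp
      have hE := entry_euler (v := v) hentry U
      rw [hE] at he
      have hcnt : cnt U ev = cnt U od + 1 := by omega
      have hsub : sub (2 ^ (v : ℕ)) U = true := by
        rw [← Nat.one_shiftLeft, ← fs_subset_iff (one_shiftLeft_lt v), fs_singleton]
        simpa using mem_fs.mp hvU
      have hst := starOK_spec (statesOK_iff h5 U hU) v ev od hp hsub hcnt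
      refine ihd _ hst ?_
      rw [deletion_restr, ← Nat.one_shiftLeft, fs_erase v (mem_fs.mp hvU)]
  intro hN
  refine key _ hN (2 ^ n - 1) (mem_iff.mp h6) ?_
  have : fs n (2 ^ n - 1) = Finset.univ := by
    ext v
    simp [Nat.testBit_two_pow_sub_one]
  rw [this, restr_univ]

end Pool.Agent.Lib.MP_1acbfe_co
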