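import Mathlib
import Pool.Agent.Lib.MP_1acbfe_co.Defs

/-!
# Local constructibility from an order of gluings of the facets of a complex
-/

namespace Pool.Agent.Lib.MP_1acbfe_co

variable {V : Type*} [DecidableEq V]

/-- The facets `i` and `j` are connected by facets containing `e`, glued along ridges
containing `e`. -/
def Conn (fac : ℕ → Finset V) (P : List (ℕ × ℕ)) (e : Finset V) : ℕ → ℕ → Prop :=
  Relation.ReflTransGen fun p q => ((p, q) ∈ P ∨ (q, p) ∈ P) ∧ e ⊆ fac p ∩ fac q

lemma Conn.symm {fac : ℕ → Finset V} {P : List (ℕ × ℕ)} {e : Finset V} {i j : ℕ}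
    (h : Conn fac P e i j) : Conn fac P e j i := by
  induction h with
  | refl => exact Relation.ReflTransGen.refl
  | tail _ hbc ih =>
    exact Relation.ReflTransGen.head ⟨hbc.1.symm, by rw [Finset.inter_comm]; exact hbc.2⟩ ih

/-- An LC construction in which all gluings are along common ridges of the facets `fac i`. -/
inductive LSeq (fac : ℕ → Finset V) (d : ℕ) : ℕ → List (ℕ × ℕ) → Prop
  | one : LSeq fac d 1 []
  | attach {m : ℕ} {P : List (ℕ × ℕ)} (i : ℕ) (h : LSeq fac d m P) (hi : i < m)
      (hc : (fac i ∩ fac m).card = d)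
      (hf : ∀ p ∈ P, fac p.1 ∩ fac p.2 ≠ fac i ∩ fac m) : LSeq fac d (m + 1) ((i, m) :: P)
  | glue {m : ℕ} {P : List (ℕ × ℕ)} (i j : ℕ) (e : Finset V) (h : LSeq fac d m P) (hi : i < m)
      (hj : j < m) (hij : i ≠ j) (hc : (fac i ∩ fac j).card = d)
      (hf : ∀ p ∈ P, fac p.1 ∩ fac p.2 ≠ fac i ∩ fac j)
      (he : e ⊆ fac i ∩ fac j) (hec : e.card = d - 1) (hconn : Conn fac P e i j) :
      LSeq fac d m ((i, j) :: P)

lemma LSeq.lt {fac : ℕ → Finset V} {d m : ℕ} {P : List (ℕ × ℕ)} (h : LSeq fac d m P) :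
    ∀ p ∈ P, p.1 < m ∧ p.2 < m := by
  induction h with
  | one => simp
  | attach i h hi hc hf ih =>
    intro p hp
    rcases List.mem_cons.mp hp with rfl | hp
    · exact ⟨by simp only; omega, by simp only; omega⟩
    · have := ih p hp
      omega
  | glue i j e h hi hj hij hc hf he hec hconn ih =>
    intro p hp
    rcases List.mem_cons.mp hp with rfl | hp
    · exact ⟨hi, hj⟩
    · exact ih p hp

/-- The gluing `g` realises the gluing of the facets `p.1` and `p.2` along their ridge. -/
def Compat {d : ℕ} (fac : ℕ → Finset V) (lab : ℕ → Fin (d + 1) → V) (p : ℕ × ℕ)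
    (g : FacetGluing d) : Prop :=
  g.i = p.1 ∧ g.j = p.2 ∧ (∀ l, lab g.i (g.α l) = lab g.j (g.β l)) ∧
    (Set.range fun l => lab g.i (g.α l)) = ↑(fac p.1 ∩ fac p.2)

omit [DecidableEq V] in
lemma exists_enum {d : ℕ} {R : Finset V} (h : R.card = d) :
    ∃ ρ : Fin d ↪ V, Set.range ρ = ↑R := by
  refine ⟨(Finset.equivFinOfCardEq h).symm.toEmbedding.trans (Function.Embedding.subtype _), ?_⟩
  ext v
  simp only [Set.mem_range, Function.Embedding.trans_apply, Equiv.coe_toEmbedding,
    Function.Embedding.coe_subtype, Finset.mem_coe]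
  constructor
  · rintro ⟨l, rfl⟩
    exact ((Finset.equivFinOfCardEq h).symm l).2
  · intro hv
    exact ⟨Finset.equivFinOfCardEq h ⟨v, hv⟩, by simp⟩

lemma exists_lift {A B C : Type*} (f : A ↪ C) (g : B → C) (h : ∀ a, f a ∈ Set.range g) :
    ∃ c : A ↪ B, ∀ a, g (c a) = f a := by
  choose c hc using h
  refine ⟨⟨c, fun a b hab => f.injective ?_⟩, hc⟩
  rw [← hc a, ← hc b, hab]

section

variable {d : ℕ} {fac : ℕ → Finset V} {lab : ℕ → Fin (d + 1) → V} {M : ℕ}
  {P : List (ℕ × ℕ)} {G : List (FacetGluing d)}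

lemma forall₂_right (h : List.Forall₂ (Compat fac lab) P G) :
    ∀ g ∈ G, ∃ p ∈ P, Compat fac lab p g := by
  induction h with
  | nil => simp
  | cons h _ ih =>
    intro g hg
    rcases List.mem_cons.mp hg with rfl | hg
    · exact ⟨_, List.mem_cons_self, h⟩
    · obtain ⟨p, hp, hc⟩ := ih g hg
      exact ⟨p, List.mem_cons_of_mem _ hp, hc⟩

lemma forall₂_left (h : List.Forall₂ (Compat fac lab) P G) :
    ∀ p ∈ P, ∃ g ∈ G, Compat fac lab p g := by
  induction h with
  | nil => simp
  | cons h _ ih =>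
    intro g hg
    rcases List.mem_cons.mp hg with rfl | hg
    · exact ⟨_, List.mem_cons_self, h⟩
    · obtain ⟨p, hp, hc⟩ := ih g hg
      exact ⟨p, List.mem_cons_of_mem _ hp, hc⟩

lemma ident_lab (h : List.Forall₂ (Compat fac lab) P G) {k : ℕ}
    {x y : ℕ × (Fin k ↪ Fin (d + 1))} (hxy : Identified G k x y) :
    ∀ l, lab x.1 (x.2 l) = lab y.1 (y.2 l) := by
  induction hxy with
  | rel x y hxy =>
    obtain ⟨g, hg, c, rfl, rfl⟩ := hxy
    obtain ⟨p, -, -, -, hc, -⟩ := forall₂_right h g hg
    intro l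
    exact hc (c l)
  | refl x => intro l; rfl
  | symm x y _ ih => intro l; exact (ih l).symm
  | trans x y z _ _ ih1 ih2 => intro l; exact (ih1 l).trans (ih2 l)

lemma conn_ident (hlab : ∀ i < M, Function.Injective (lab i) ∧ Set.range (lab i) = ↑(fac i))
    (h : List.Forall₂ (Compat fac lab) P G) (hP : ∀ p ∈ P, p.1 < M ∧ p.2 < M)
    {e : Finset V} {i j : ℕ} (hc : Conn fac P e i j) {k : ℕ} (t : Fin k ↪ Fin (d + 1))
    (ht : ∀ l, lab i (t l) ∈ e) :
    ∃ u : Fin k ↪ Fin (d + 1), (∀ l, lab j (u l) = lab i (t l)) ∧ Identified G k (i, t) (j, u) := by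
  induction hc with
  | refl => exact ⟨t, fun _ => rfl, Relation.EqvGen.refl _⟩
  | @tail b c _ hbc ih =>
    obtain ⟨u, hu, hid⟩ := ih
    obtain ⟨hor, hsub⟩ := hbc
    have hmem : ∀ l, lab b (u l) ∈ (fac b ∩ fac c : Finset V) := fun l => by
      rw [hu l]; exact hsub (ht l)
    rcases hor with hor | hor
    · obtain ⟨g, hg, h1, h2, h3, h4⟩ := forall₂_left h _ hor
      simp only at h1 h2 h4
      have hb := (hP _ hor).1
      have hl : ∀ l, lab b (u l) ∈ Set.range fun l' => lab g.i (g.α l') := by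
        intro l
        rw [h4]
        exact hmem l
      choose c' hc' using hl
      have hinj := (hlab b hb).1
      have hcu : ∀ l, g.α (c' l) = u l := by
        intro l
        have := hc' l
        simp only [h1] at this
        exact hinj this
      let c'' : Fin k ↪ Fin d := ⟨c', fun l l' hll => u.injective (by
        rw [← hcu l, ← hcu l', hll])⟩
      have hu' : u = c''.trans g.α := by
        ext l
        exact congrArg Fin.val (hcu l).symm
      refine ⟨c''.trans g.β, fun l => ?_, hid.trans _ _ _ (Relation.EqvGen.rel _ _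
        ⟨g, hg, c'', ?_, ?_⟩)⟩
      · rw [← hu l, ← hcu l, ← h2]
        have := h3 (c' l)
        rw [h1] at this
        exact this.symm
      · rw [h1, hu']
      · rw [h2]
    · obtain ⟨g, hg, h1, h2, h3, h4⟩ := forall₂_left h _ hor
      simp only at h1 h2 h4
      have hb := (hP _ hor).2
      have hl : ∀ l, lab b (u l) ∈ Set.range fun l' => lab g.i (g.α l') := by
        intro l
        rw [h4, Finset.inter_comm]
        exact hmem l
      choose c' hc' using hl
      have hinj := (hlab b hb).1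
      have hcu : ∀ l, g.β (c' l) = u l := by
        intro l
        have := hc' l
        simp only [h3, h2] at this
        exact hinj this
      let c'' : Fin k ↪ Fin d := ⟨c', fun l l' hll => u.injective (by
        rw [← hcu l, ← hcu l', hll])⟩
      have hu' : u = c''.trans g.β := by
        ext l
        exact congrArg Fin.val (hcu l).symm
      refine ⟨c''.trans g.α, fun l => ?_, hid.trans _ _ _ (Relation.EqvGen.symm _ _
        (Relation.EqvGen.rel _ _ ⟨g, hg, c'', ?_, ?_⟩))⟩
      · rw [← hu l, ← hcu l, ← h1]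
        have := h3 (c' l)
        rw [h2] at this
        exact this
      · rw [h1]
      · rw [h2, hu']

lemma boundary_of_free (h : List.Forall₂ (Compat fac lab) P G) {i : ℕ} {α : Fin d ↪ Fin (d + 1)}
    {R : Finset V} (hα : (Set.range fun l => lab i (α l)) = ↑R)
    (hf : ∀ p ∈ P, fac p.1 ∩ fac p.2 ≠ R) : IsBoundaryFacet G i α := by
  intro g hg
  obtain ⟨p, hp, h1, h2, h3, h4⟩ := forall₂_right h g hg
  constructor
  · rintro ⟨hi, hr⟩
    apply hf p hp
    rw [← Finset.coe_inj, ← h4, ← hα, hi]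
    change Set.range (lab i ∘ g.α) = Set.range (lab i ∘ α)
    rw [Set.range_comp, Set.range_comp, hr]
  · rintro ⟨hi, hr⟩
    apply hf p hp
    rw [← Finset.coe_inj, ← h4, ← hα]
    have : (fun l => lab g.i (g.α l)) = fun l => lab i (g.β l) := by
      funext l; rw [h3 l, hi]
    rw [this]
    change Set.range (lab i ∘ g.β) = Set.range (lab i ∘ α)
    rw [Set.range_comp, Set.range_comp, hr]

theorem LSeq.construction
    (hlab : ∀ i < M, Function.Injective (lab i) ∧ Set.range (lab i) = ↑(fac i))
    {m : ℕ} (h : LSeq fac d m P) (hm : m ≤ M) :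
    ∃ G : List (FacetGluing d), LCConstruction d m G ∧ List.Forall₂ (Compat fac lab) P G := by
  induction h with
  | one => exact ⟨[], LCConstruction.simplex, List.Forall₂.nil⟩
  | @attach m P i h hi hc hf ih =>
    obtain ⟨G, hG, hPG⟩ := ih (by omega)
    obtain ⟨ρ, hρ⟩ := exists_enum hc
    obtain ⟨α, hα⟩ := exists_lift ρ (lab i) (fun l => by
      rw [(hlab i (by omega)).2]
      have : ρ l ∈ (↑(fac i ∩ fac m) : Set V) := by rw [← hρ]; exact ⟨l, rfl⟩
      exact (Finset.mem_inter.mp this).1)
    obtain ⟨β, hβ⟩ := exists_lift ρ (lab m) (fun l => by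
      rw [(hlab m (by omega)).2]
      have : ρ l ∈ (↑(fac i ∩ fac m) : Set V) := by rw [← hρ]; exact ⟨l, rfl⟩
      exact (Finset.mem_inter.mp this).2)
    have hr : (Set.range fun l => lab i (α l)) = ↑(fac i ∩ fac m) := by
      rw [← hρ]; congr 1; funext l; exact hα l
    refine ⟨⟨i, α, m, β⟩ :: G, LCConstruction.attach i α β hG hi (boundary_of_free hPG hr hf),
      List.Forall₂.cons ⟨rfl, rfl, fun l => ?_, hr⟩ hPG⟩
    simp only
    rw [hα l, hβ l]
  | @glue m P i j e h hi hj hij hc hf he hec hconn ih =>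
    obtain ⟨G, hG, hPG⟩ := ih hm
    obtain ⟨ρ, hρ⟩ := exists_enum hc
    obtain ⟨α, hα⟩ := exists_lift ρ (lab i) (fun l => by
      rw [(hlab i (by omega)).2]
      have : ρ l ∈ (↑(fac i ∩ fac j) : Set V) := by rw [← hρ]; exact ⟨l, rfl⟩
      exact (Finset.mem_inter.mp this).1)
    obtain ⟨β, hβ⟩ := exists_lift ρ (lab j) (fun l => by
      rw [(hlab j (by omega)).2]
      have : ρ l ∈ (↑(fac i ∩ fac j) : Set V) := by rw [← hρ]; exact ⟨l, rfl⟩
      exact (Finset.mem_inter.mp this).2)
    have hr : (Set.range fun l => lab i (α l)) = ↑(fac i ∩ fac j) := by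
      rw [← hρ]; congr 1; funext l; exact hα l
    have hr' : (Set.range fun l => lab j (β l)) = ↑(fac i ∩ fac j) := by
      rw [← hρ]; congr 1; funext l; exact hβ l
    obtain ⟨ε, hε⟩ := exists_enum hec
    have hεe : ∀ l, ε l ∈ e := fun l => by
      have : ε l ∈ (↑e : Set V) := by rw [← hε]; exact ⟨l, rfl⟩
      exact this
    obtain ⟨c, hc'⟩ := exists_lift ε ρ (fun l => by rw [hρ]; exact he (hεe l))
    obtain ⟨u, hu, hid⟩ := conn_ident hlab hPG
      (fun p hp => by have := h.lt p hp; omega) hconn (c.trans α) (fun l => by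
        change lab i (α (c l)) ∈ e
        rw [hα, hc']; exact hεe l)
    have huβ : u = c.trans β := by
      ext l
      have h1 := hu l
      change lab j (u l) = lab i (α (c l)) at h1
      rw [hα, ← hβ] at h1
      exact congrArg Fin.val ((hlab j (by omega)).1 h1)
    rw [huβ] at hid
    refine ⟨⟨i, α, j, β⟩ :: G, LCConstruction.identify i j α β c hG hi hj
      (boundary_of_free hPG hr hf) (boundary_of_free hPG hr' hf) (fun h => hij h.1) hid,
      List.Forall₂.cons ⟨rfl, rfl, fun l => ?_, hr⟩ hPG⟩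
    simp only
    rw [hα l, hβ l]

end

/-- Main theorem: a complex with an LC order of its facets and ridges is LC. -/
theorem isLC_of_lseq {d M : ℕ} {fac : ℕ → Finset V} {P : List (ℕ × ℕ)}
    {K : PreAbstractSimplicialComplex V} (hcard : ∀ i < M, (fac i).card = d + 1)
    (hseq : LSeq fac d M P)
    (hconn : ∀ i < M, ∀ j < M, ∀ e : Finset V, e ⊆ fac i → e ⊆ fac j → Conn fac P e i j)
    (hK : ∀ s : Finset V, s ∈ K.faces ↔ s.Nonempty ∧ ∃ i < M, s ⊆ fac i) : IsLC d K := by
  have hex : ∀ i, ∃ f : Fin (d + 1) → V, i < M → Function.Injective f ∧ Set.range f = ↑(fac i) := by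
    intro i
    by_cases hi : i < M
    · obtain ⟨ρ, hρ⟩ := exists_enum (hcard i hi)
      exact ⟨ρ, fun _ => ⟨ρ.injective, hρ⟩⟩
    · by_cases hne : Nonempty (Fin (d + 1) → V)
      · exact ⟨hne.some, fun h => absurd h hi⟩
      · exfalso
        apply hne
        have h0 : 0 < M := by
          cases hseq <;> omega
        obtain ⟨ρ, -⟩ := exists_enum (hcard 0 h0)
        exact ⟨ρ⟩
  choose lab hlab' using hex
  have hlab : ∀ i < M, Function.Injective (lab i) ∧ Set.range (lab i) = ↑(fac i) :=
    fun i hi => hlab' i hi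
  obtain ⟨G, hG, hPG⟩ := hseq.construction hlab le_rfl
  refine ⟨M, G, lab, hG, fun i hi => (hlab i hi).1, fun s => ?_, ?_⟩
  · rw [hK]
    refine and_congr_right fun _ => exists_congr fun i => and_congr_right fun hi => ?_
    rw [(hlab i hi).2]
    rfl
  · intro k i hi j hj t u
    constructor
    · intro htu
      let e : Finset V := Finset.univ.image fun l => lab i (t l)
      have he : ∀ l, lab i (t l) ∈ e := fun l => Finset.mem_image_of_mem _ (Finset.mem_univ l)
      have hei : e ⊆ fac i := by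
        intro v hv
        obtain ⟨l, -, rfl⟩ := Finset.mem_image.mp hv
        have : lab i (t l) ∈ (↑(fac i) : Set V) := by
          rw [← (hlab i hi).2]; exact ⟨_, rfl⟩
        exact this
      have hej : e ⊆ fac j := by
        intro v hv
        obtain ⟨l, -, rfl⟩ := Finset.mem_image.mp hv
        have : lab i (t l) ∈ (↑(fac j) : Set V) := by
          rw [htu l, ← (hlab j hj).2]; exact ⟨_, rfl⟩
        exact this
      obtain ⟨u', hu', hid⟩ := conn_ident hlab hPG hseq.lt (hconn i hi j hj e hei hej) t he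
      have : u' = u := by
        ext l
        have h1 := (hu' l).trans (htu l)
        exact congrArg Fin.val ((hlab j hj).1 h1)
      rw [this] at hid
      exact hid
    · intro hid
      exact ident_lab hPG hid

end Pool.Agent.Lib.MP_1acbfe_co
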