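import Mathlib
import Pool.Agent.Lib.MP_1acbfe_co.Evasive2
import Pool.Agent.Lib.MP_1acbfe_co.LC

/-!
# Certificates for local constructibility and shellability
-/

namespace Pool.Agent.Lib.MP_1acbfe_co

/-- The facet number `i`. -/
def getF (F : List ℕ) (i : ℕ) : ℕ := F.getD i 0

/-- `a` and `b` are glued along a ridge containing `e`. -/
def edgeIn (P : List (ℕ × ℕ × ℕ)) (a b e : ℕ) : Bool :=
  P.any fun p => ((Nat.beq p.1 a && Nat.beq p.2.1 b) || (Nat.beq p.1 b && Nat.beq p.2.1 a)) &&
    sub e p.2.2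

/-- Check of a path of glued facets. -/
def pathOK (P : List (ℕ × ℕ × ℕ)) (e : ℕ) : ℕ → List ℕ → ℕ → Bool
  | a, [], b => Nat.beq a b
  | a, c :: l, b => edgeIn P a c e && pathOK P e c l b

/-- Check of one gluing. -/
def stepOK (n d : ℕ) (F : List ℕ) (m : ℕ) (P : List (ℕ × ℕ × ℕ)) (i j r e : ℕ)
    (path : List ℕ) : Bool :=
  Nat.blt i m && Nat.beq r (getF F i &&& getF F j) && Nat.beq (pc n r) d &&
    !(P.any fun p => Nat.beq p.2.2 r) &&
    (Nat.beq j m || (Nat.blt j m && !(Nat.beq i j) && Nat.blt e (2 ^ n) && sub e r &&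
      Nat.beq (pc n e) (d - 1) && pathOK P e i path j))

/-- Perform the gluings. -/
def seqCheck (n d : ℕ) (F : List ℕ) : List (ℕ × ℕ × ℕ × ℕ × List ℕ) → ℕ → List (ℕ × ℕ × ℕ) →
    Option (ℕ × List (ℕ × ℕ × ℕ))
  | [], m, P => some (m, P)
  | (i, j, r, e, path) :: rest, m, P =>
    match stepOK n d F m P i j r e path with
    | true => match Nat.beq j m with
      | true => seqCheck n d F rest (m + 1) ((i, j, r) :: P)
      | false => seqCheck n d F rest m ((i, j, r) :: P)
    | false => none

/-- The pairs of glued facets. -/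
def prs (P : List (ℕ × ℕ × ℕ)) : List (ℕ × ℕ) := P.map fun p => (p.1, p.2.1)

section

variable {n d : ℕ} {F : List ℕ}

lemma edgeIn_spec {P : List (ℕ × ℕ × ℕ)}
    (hP : ∀ p ∈ P, p.2.2 = getF F p.1 &&& getF F p.2.1) {a b e : ℕ}
    (h : edgeIn P a b e = true) :
    ((a, b) ∈ prs P ∨ (b, a) ∈ prs P) ∧ fs n e ⊆ fs n (getF F a) ∩ fs n (getF F b) := by
  simp only [edgeIn, List.any_eq_true, Bool.and_eq_true, Bool.or_eq_true] at h
  obtain ⟨⟨x, y, r⟩, hp, h1, h2⟩ := h
  have hr := hP _ hp
  simp only at hr h1 h2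
  rcases h1 with ⟨ha, hb⟩ | ⟨hb, ha⟩
  · have ha' := Nat.eq_of_beq_eq_true ha
    have hb' := Nat.eq_of_beq_eq_true hb
    subst ha' hb'
    refine ⟨Or.inl (List.mem_map.mpr ⟨_, hp, rfl⟩), ?_⟩
    rw [← fs_and, ← hr]
    exact fs_subset h2
  · have ha' := Nat.eq_of_beq_eq_true ha
    have hb' := Nat.eq_of_beq_eq_true hb
    subst ha' hb'
    refine ⟨Or.inr (List.mem_map.mpr ⟨_, hp, rfl⟩), ?_⟩
    rw [Finset.inter_comm, ← fs_and, ← hr]
    exact fs_subset h2

lemma pathOK_spec {P : List (ℕ × ℕ × ℕ)}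
    (hP : ∀ p ∈ P, p.2.2 = getF F p.1 &&& getF F p.2.1) {e : ℕ} :
    ∀ (l : List ℕ) (a b : ℕ), pathOK P e a l b = true →
      Conn (fun i => fs n (getF F i)) (prs P) (fs n e) a b
  | [], a, b, h => by
    have := Nat.eq_of_beq_eq_true h
    subst this
    exact Relation.ReflTransGen.refl
  | c :: l, a, b, h => by
    simp only [pathOK, Bool.and_eq_true] at h
    exact Relation.ReflTransGen.head (edgeIn_spec hP h.1) (pathOK_spec hP l c b h.2)

lemma getF_lt (hF : ∀ f ∈ F, f < 2 ^ n) (i : ℕ) : getF F i < 2 ^ n := by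
  unfold getF
  rw [List.getD_eq_getElem?_getD]
  rcases h : F[i]? with _ | x
  · simp
  · have := List.mem_of_getElem? h
    simpa using hF x this

lemma ridge_ne (hF : ∀ f ∈ F, f < 2 ^ n) {P : List (ℕ × ℕ × ℕ)}
    (hP : ∀ p ∈ P, p.2.2 = getF F p.1 &&& getF F p.2.1) {i j : ℕ}
    (h : (!(P.any fun p => Nat.beq p.2.2 (getF F i &&& getF F j))) = true) :
    ∀ p ∈ prs P, fs n (getF F p.1) ∩ fs n (getF F p.2) ≠ fs n (getF F i) ∩ fs n (getF F j) := by
  intro p hp e
  obtain ⟨q, hq, rfl⟩ := List.mem_map.mp hp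
  simp only at e
  rw [← fs_and, ← fs_and, ← hP q hq] at e
  have hlt : ∀ a b, getF F a &&& getF F b < 2 ^ n := fun a b =>
    lt_of_le_of_lt Nat.and_le_left (getF_lt hF a)
  have := fs_inj (by rw [hP q hq]; exact hlt _ _) (hlt i j) e
  rw [Bool.not_eq_true', List.any_eq_false] at h
  apply h q hq
  rw [this]
  exact Nat.beq_refl _

lemma seqCheck_spec (hF : ∀ f ∈ F, f < 2 ^ n) :
    ∀ (l : List (ℕ × ℕ × ℕ × ℕ × List ℕ)) (m : ℕ) (P : List (ℕ × ℕ × ℕ)) (m' : ℕ)
      (P' : List (ℕ × ℕ × ℕ)), (∀ p ∈ P, p.2.2 = getF F p.1 &&& getF F p.2.1) →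
      LSeq (fun i => fs n (getF F i)) d m (prs P) → seqCheck n d F l m P = some (m', P') →
      (∀ p ∈ P', p.2.2 = getF F p.1 &&& getF F p.2.1) ∧
        LSeq (fun i => fs n (getF F i)) d m' (prs P')
  | [], m, P, m', P', hP, hL, h => by
    simp only [seqCheck, Option.some.injEq, Prod.mk.injEq] at h
    obtain ⟨rfl, rfl⟩ := h
    exact ⟨hP, hL⟩
  | (i, j, r, e, path) :: rest, m, P, m', P', hP, hL, h => by
    rcases hs : stepOK n d F m P i j r e path with _ | _
    · simp [seqCheck, hs] at h
    · have hs' := hs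
      simp only [stepOK, Bool.and_eq_true] at hs'
      obtain ⟨⟨⟨⟨h1, h2⟩, h3⟩, h4⟩, h5⟩ := hs'
      have hi : i < m := by simpa [Nat.blt] using h1
      have hr := Nat.eq_of_beq_eq_true h2
      subst hr
      have hcard : (fs n (getF F i) ∩ fs n (getF F j)).card = d := by
        rw [← fs_and, card_fs]; exact Nat.eq_of_beq_eq_true h3
      have hne := ridge_ne hF hP h4
      have hP2 : ∀ p ∈ (i, j, getF F i &&& getF F j) :: P,
          p.2.2 = getF F p.1 &&& getF F p.2.1 := by
        intro p hp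
        rcases List.mem_cons.mp hp with rfl | hp
        · rfl
        · exact hP p hp
      rcases hjm : Nat.beq j m with _ | _
      · simp only [seqCheck, hs, hjm] at h
        rw [Bool.or_eq_true, hjm] at h5
        have h5' := h5.resolve_left (by simp)
        simp only [Bool.and_eq_true] at h5'
        obtain ⟨⟨⟨⟨⟨a1, a2⟩, a3⟩, a4⟩, a5⟩, a6⟩ := h5'
        have hj : j < m := by simpa [Nat.blt] using a1
        have hij : i ≠ j := by rintro rfl; simp at a2
        refine seqCheck_spec hF rest m _ m' P' hP2 ?_ h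
        refine LSeq.glue i j (fs n e) hL hi hj hij hcard hne ?_ ?_ (pathOK_spec hP path i j a6)
        · rw [← fs_and]
          exact fs_subset a4
        · rw [card_fs]; exact Nat.eq_of_beq_eq_true a5
      · simp only [seqCheck, hs, hjm] at h
        have hjm' := Nat.eq_of_beq_eq_true hjm
        subst hjm'
        exact seqCheck_spec hF rest _ _ m' P' hP2 (LSeq.attach i hL hi hcard hne) h

/-- Grow a tree of glued facets all of which contain `e`. -/
def treeGo (P : List (ℕ × ℕ × ℕ)) (e : ℕ) : List ℕ → List (ℕ × ℕ) → Option (List ℕ)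
  | seen, [] => some seen
  | seen, (a, b) :: l => match mem a seen && edgeIn P a b e with
    | true => treeGo P e (b :: seen) l
    | false => none

/-- Each facet containing `e` has been seen. -/
def coverGo (e : ℕ) (seen : List ℕ) : List ℕ → ℕ → Bool
  | [], _ => true
  | f :: l, i => (!(sub e f) || mem i seen) && coverGo e seen l (i + 1)

/-- Check of one spanning tree. -/
def treeOK (F : List ℕ) (P : List (ℕ × ℕ × ℕ)) (e root : ℕ) (t : List (ℕ × ℕ)) : Bool :=
  match treeGo P e [root] t with
  | some seen => coverGo e seen F 0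
  | none => false

lemma treeGo_spec {P : List (ℕ × ℕ × ℕ)}
    (hP : ∀ p ∈ P, p.2.2 = getF F p.1 &&& getF F p.2.1) {e root : ℕ} :
    ∀ (l : List (ℕ × ℕ)) (seen seen' : List ℕ),
      (∀ x ∈ seen, Conn (fun i => fs n (getF F i)) (prs P) (fs n e) root x) →
      treeGo P e seen l = some seen' →
      ∀ x ∈ seen', Conn (fun i => fs n (getF F i)) (prs P) (fs n e) root x
  | [], seen, seen', h, h' => by
    simp only [treeGo, Option.some.injEq] at h'
    subst h'
    exact h
  | (a, b) :: l, seen, seen', h, h' => by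
    rcases hc : (mem a seen && edgeIn P a b e) with _ | _
    · simp [treeGo, hc] at h'
    · simp only [treeGo, hc] at h'
      rw [Bool.and_eq_true] at hc
      refine treeGo_spec hP l _ _ ?_ h'
      intro x hx
      rcases List.mem_cons.mp hx with rfl | hx
      · exact Relation.ReflTransGen.tail (h a (mem_iff.mp hc.1)) (edgeIn_spec hP hc.2)
      · exact h x hx

lemma coverGo_spec {e : ℕ} {seen : List ℕ} : ∀ (l : List ℕ) (k : ℕ),
    coverGo e seen l k = true → ∀ i < l.length, sub e (getF l i) = true → k + i ∈ seen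
  | [], k, h, i, hi, _ => by simp at hi
  | f :: l, k, h, i, hi, hs => by
    simp only [coverGo, Bool.and_eq_true, Bool.or_eq_true, Bool.not_eq_true'] at h
    rcases i with _ | i
    · have hs' : sub e f = true := hs
      rcases h.1 with h1 | h1
      · rw [hs'] at h1; exact absurd h1 (by simp)
      · exact mem_iff.mp h1
    · have := coverGo_spec l (k + 1) h.2 i (by simpa using hi) hs
      rwa [show k + (i + 1) = k + 1 + i by ring]

/-- Check that the list `E` contains all faces. -/
def facesOK (n : ℕ) (F E : List ℕ) : Bool :=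
  (F.all fun f => mem f E) && (E.all fun m => Nat.blt m (2 ^ n) &&
    (List.range n).all fun w => !(m.testBit w) || mem (m ^^^ (1 <<< w)) E)

lemma facesOK_spec {E : List ℕ} (h : facesOK n F E = true) {f : ℕ} (hf : f ∈ F) :
    ∀ k : ℕ, ∀ e : Finset (Fin n), e ⊆ fs n f → (fs n f \ e).card = k → ∃ m ∈ E, fs n m = e := by
  simp only [facesOK, Bool.and_eq_true, List.all_eq_true, List.mem_range] at h
  obtain ⟨h1, h2⟩ := h
  intro k
  induction k with
  | zero =>
    intro e he hk
    rw [Finset.card_eq_zero, Finset.sdiff_eq_empty_iff_subset] at hk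
    exact ⟨f, mem_iff.mp (h1 f hf), Finset.Subset.antisymm hk he⟩
  | succ k ih =>
    intro e he hk
    obtain ⟨w, hw⟩ : (fs n f \ e).Nonempty := by
      rw [← Finset.card_pos]; omega
    rw [Finset.mem_sdiff] at hw
    obtain ⟨m, hm, hms⟩ := ih (insert w e) (Finset.insert_subset hw.1 he) (by
      rw [Finset.sdiff_insert, Finset.card_erase_of_mem (Finset.mem_sdiff.mpr hw), hk]
      rfl)
    have hmw : m.testBit w = true := by
      rw [← mem_fs (n := n), hms]; exact Finset.mem_insert_self _ _
    have := (h2 m hm).2 w w.2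
    rw [hmw] at this
    refine ⟨m ^^^ (1 <<< (w : ℕ)), mem_iff.mp (by simpa using this), ?_⟩
    rw [fs_erase w hmw, hms, Finset.erase_insert hw.2]

/-- The whole LC certificate. -/
def lcCheck (n d : ℕ) (F : List ℕ) (steps : List (ℕ × ℕ × ℕ × ℕ × List ℕ))
    (P : List (ℕ × ℕ × ℕ)) (trees : List (ℕ × ℕ × List (ℕ × ℕ))) : Bool :=
  (F.all fun f => Nat.blt f (2 ^ n) && Nat.beq (pc n f) (d + 1)) &&
  (match seqCheck n d F steps 1 [] with
    | some (m, P') => Nat.beq m F.length && decide (P' = P)
    | none => false) &&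
  facesOK n F (trees.map Prod.fst) &&
  trees.all fun t => treeOK F P t.1 t.2.1 t.2.2

lemma getF_mem {i : ℕ} (hi : i < F.length) : getF F i ∈ F := by
  unfold getF
  rw [List.getD_eq_getElem _ _ hi]
  exact List.getElem_mem hi

lemma exists_getF {f : ℕ} (hf : f ∈ F) : ∃ i < F.length, getF F i = f := by
  obtain ⟨i, hi, rfl⟩ := List.getElem_of_mem hf
  exact ⟨i, hi, by unfold getF; rw [List.getD_eq_getElem _ _ hi]⟩

lemma mem_faces_getF {s : Finset (Fin n)} : s ∈ (cpx (setOf n F)).faces ↔
    s.Nonempty ∧ ∃ i < F.length, s ⊆ fs n (getF F i) := by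
  rw [mem_faces_cpx]
  refine and_congr_right fun _ => ?_
  constructor
  · rintro ⟨t, ht, hst⟩
    obtain ⟨i, hi, rfl⟩ := exists_getF ht
    exact ⟨i, hi, hst⟩
  · rintro ⟨i, hi, hst⟩
    exact ⟨_, getF_mem hi, hst⟩

theorem isLC_of_check {steps : List (ℕ × ℕ × ℕ × ℕ × List ℕ)} {P : List (ℕ × ℕ × ℕ)}
    {trees : List (ℕ × ℕ × List (ℕ × ℕ))} (h : lcCheck n d F steps P trees = true) :
    IsLC d (cpx (setOf n F)) := by
  simp only [lcCheck, Bool.and_eq_true, List.all_eq_true] at h
  obtain ⟨⟨⟨h1, h2⟩, h3⟩, h4⟩ := h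
  have hF : ∀ f ∈ F, f < 2 ^ n := fun f hf => by simpa [Nat.blt] using (h1 f hf).1
  rcases hs : seqCheck n d F steps 1 [] with _ | ⟨m, P'⟩
  · rw [hs] at h2; exact absurd h2 (by simp)
  · rw [hs] at h2
    simp only [Bool.and_eq_true, decide_eq_true_eq] at h2
    obtain ⟨hm, rfl⟩ := h2
    have hm' := Nat.eq_of_beq_eq_true hm
    subst hm'
    obtain ⟨hP, hL⟩ := seqCheck_spec (n := n) (d := d) hF steps 1 [] _ _ (by simp) LSeq.one hs
    refine isLC_of_lseq (fun i hi => ?_) hL ?_ (fun s => mem_faces_getF)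
    · rw [card_fs]; exact Nat.eq_of_beq_eq_true (h1 _ (getF_mem hi)).2
    · intro i hi j hj e hei hej
      obtain ⟨m, hm, hme⟩ := facesOK_spec h3 (getF_mem hi) _ e hei rfl
      obtain ⟨⟨m', root, t⟩, ht, hmt⟩ := List.mem_map.mp hm
      simp only at hmt
      subst hmt
      have htree := h4 _ ht
      simp only [treeOK] at htree
      have hmlt : m' < 2 ^ n := by
        simp only [facesOK, Bool.and_eq_true, List.all_eq_true] at h3
        simpa [Nat.blt] using (h3.2 m' hm).1
      rcases hg : treeGo P' m' [root] t with _ | seen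
      · rw [hg] at htree; exact absurd htree (by simp)
      · rw [hg] at htree
        have hseen := treeGo_spec (n := n) hP (e := m') (root := root) t [root] seen (by
          intro x hx
          rw [List.mem_singleton.mp hx]
          exact Relation.ReflTransGen.refl) hg
        have hi' := coverGo_spec F 0 htree i hi
          ((fs_subset_iff hmlt).mp (by rw [hme]; exact hei))
        have hj' := coverGo_spec F 0 htree j hj
          ((fs_subset_iff hmlt).mp (by rw [hme]; exact hej))
        rw [Nat.zero_add] at hi' hj'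
        have c1 := hseen i hi'
        have c2 := hseen j hj'
        rw [hme] at c1 c2
        exact c1.symm.trans c2

/-- Check of a shelling: `prev` is the list of the previous facets. -/
def shellGo (n d : ℕ) : List ℕ → List ℕ → Bool
  | _, [] => true
  | prev, x :: l =>
    (prev.all fun y => prev.any fun z => sub (y &&& x) (z &&& x) && Nat.beq (pc n (z &&& x)) d) &&
      shellGo n d (x :: prev) l

lemma shellGo_spec : ∀ (l prev : List ℕ), shellGo n d prev l = true →
    ∀ k < l.length, ∀ y ∈ prev ++ l.take k, ∃ z ∈ prev ++ l.take k,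
      sub (y &&& getF l k) (z &&& getF l k) = true ∧ pc n (z &&& getF l k) = d
  | [], prev, _, k, hk => by simp at hk
  | x :: l, prev, h, k, hk => by
    simp only [shellGo, Bool.and_eq_true, List.all_eq_true, List.any_eq_true] at h
    rcases k with _ | k
    · intro y hy
      simp only [List.take_zero, List.append_nil] at hy ⊢
      obtain ⟨z, hz, h1, h2⟩ := h.1 y hy
      exact ⟨z, hz, h1, Nat.eq_of_beq_eq_true h2⟩
    · intro y hy
      have hy' : y ∈ (x :: prev) ++ l.take k := by
        simp only [List.take_succ_cons, List.mem_append, List.mem_cons] at hy ⊢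
        tauto
      obtain ⟨z, hz, h1, h2⟩ := shellGo_spec l (x :: prev) h.2 k (by simpa using hk) y hy'
      refine ⟨z, ?_, h1, h2⟩
      simp only [List.take_succ_cons, List.mem_append, List.mem_cons] at hz ⊢
      tauto

theorem isShellable_of_check (h1 : (F.all fun f => Nat.blt f (2 ^ n) &&
      Nat.beq (pc n f) (d + 1)) = true) (h2 : decide F.Nodup = true)
    (h0 : 0 < F.length) (h3 : shellGo n d [] F = true) : IsShellable d (cpx (setOf n F)) := by
  simp only [List.all_eq_true, Bool.and_eq_true] at h1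
  have hF : ∀ f ∈ F, f < 2 ^ n := fun f hf => by simpa [Nat.blt] using (h1 f hf).1
  rw [decide_eq_true_eq] at h2
  refine ⟨F.length, fun i => fs n (getF F i), h0, ?_, ?_, fun s => mem_faces_getF, ?_⟩
  · intro i hi
    rw [card_fs]; exact Nat.eq_of_beq_eq_true (h1 _ (getF_mem hi)).2
  · intro i hi j hj e
    have := fs_inj (getF_lt hF i) (getF_lt hF j) e
    unfold getF at this
    rw [List.getD_eq_getElem _ _ hi, List.getD_eq_getElem _ _ hj] at this
    exact (h2.getElem_inj_iff).mp this
  · intro k hk i hi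
    have hmemtake : ∀ a < k, getF F a ∈ F.take k := by
      intro a ha
      unfold getF
      rw [List.getD_eq_getElem _ _ (ha.trans hk), List.mem_take_iff_getElem]
      exact ⟨a, by omega, rfl⟩
    obtain ⟨z, hz, hs, hc⟩ := shellGo_spec F [] h3 k hk (getF F i)
      (by rw [List.nil_append]; exact hmemtake i hi)
    rw [List.nil_append, List.mem_take_iff_getElem] at hz
    obtain ⟨j, hj, rfl⟩ := hz
    have hjk : j < k := by omega
    refine ⟨j, hjk, ?_, ?_⟩
    · simp only
      rw [← fs_and, ← fs_and]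
      have : getF F j = F[j]'(hjk.trans hk) := by
        unfold getF; rw [List.getD_eq_getElem _ _ (hjk.trans hk)]
      rw [this]
      exact fs_subset hs
    · simp only
      rw [← fs_and, card_fs]
      have : getF F j = F[j]'(hjk.trans hk) := by
        unfold getF; rw [List.getD_eq_getElem _ _ (hjk.trans hk)]
      rw [this]
      exact hc

end

end Pool.Agent.Lib.MP_1acbfe_co
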